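import Pool.Agent.Helper81.Kak.Z3
import Pool.Agent.Helper6.Kak.HDefs

/-!
# The cost `d6` of the hybrid step
-/

set_option autoImplicit false

namespace Pool.Agent.Helper81.Kak

open Pool.Agent.Helper8.Kak Pool.Agent.Helper89.KakGeo Pool.Agent.Helper6.Kak

section

variable {Ω : Type} [Fintype Ω] {p : Ω → ℝ} {M : ℕ}

/-- two copies of `b'`, in terms of `tw` and `tz` -/
theorem Z3tw (hp : IsProb p) (r : Setoid Ω) (b T1 b' : Ω → Fin M) (tw tz : Ω → ℤ)
    (etz : ∀ ω, 0 < p ω → tz ω = ((b ω : ℕ) : ℤ) + mv (tw ω - ((T1 ω : ℕ) : ℤ)) (b' ω) (T1 ω) (b ω))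
    (hz : ∀ ω ω', 0 < p ω → 0 < p ω' → r ω ω' → tz ω = tz ω') :
    CE p (Setoid.ker b ⊓ Setoid.ker T1) r ≤
      2 * CE p (Setoid.ker tw) (Setoid.ker b' ⊓ r)
      + 42 * (Real.log M - CE p (Setoid.ker b') ((Setoid.ker b ⊓ Setoid.ker T1) ⊓ r))
      + 4 * Ex p (fun ω => ld (b ω) (T1 ω))
      + 8 * Ex p (fun ω => dn M (((b' ω : ℕ) : ℤ) - tw ω))
      + 4 * Ex p (fun ω => up M (tw ω - ((T1 ω : ℕ) : ℤ))) + 110 := by
  have h := Z3 hp r b T1 b' (fun ω => tw ω - ((T1 ω : ℕ) : ℤ)) (fun ω ω' h h' hr => by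
    rw [← etz ω h, ← etz ω' h']
    exact hz ω ω' h h' hr)
  simp only [add_sub_cancel] at h
  exact h

end

section HH

open VH

variable {Ω : Type} [Fintype Ω] {p : Ω → ℝ} {V : VH → Setoid Ω}
  {eK eL eB eT eP eB2 LM Lam kk : ℝ}

theorem incH (h : Hy.Base p V eK eL eB eT eP eB2 LM Lam) (A A' B B' : Finset VH)
    (hB' : B' ⊆ cl Hy.rules (A' ∪ B)) (hA : A ⊆ cl Hy.rules A' ∩ cl Hy.rules B) :
    HH p V B' - HH p V B ≤ HH p V A' - HH p V A := HH_INC h.hp h.hr A A' B B' hB' hA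

theorem mnH (h : Hy.Base p V eK eL eB eT eP eB2 LM Lam) (A B : Finset VH)
    (hA : A ⊆ cl Hy.rules B) : HH p V A ≤ HH p V B := HH_MN h.hp h.hr A B hA

/-- `b'` given everything else -/
theorem rem_b' (h : Hy.Base p V eK eL eB eT eP eB2 LM Lam) :
    eB - eL ≤ HH p V {K, l0, l1, l2, T0, T1, S, R, b, b'}
      - HH p V {K, l0, l1, l2, T0, T1, S, R, b} := by
  have i1 := incH h {K, l0} {K, l0, S} {K, l0, T0, l1} {K, l0, T0, l1, S}
    (by decide +kernel) (by decide +kernel)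
  have i2 := incH h {K, l1} {K, l1, R} {K, l0, T0, l1, S} {K, l0, T0, l1, S, R}
    (by decide +kernel) (by decide +kernel)
  have i3 := incH h {K, l0} {K, l0, l2, T1} {K, l0, T0, l1, S, R} {K, l0, T0, l1, S, R, l2, T1}
    (by decide +kernel) (by decide +kernel)
  have i4 := incH h {K, l2} {K, l2, b} {K, l0, T0, l1, S, R, l2, T1}
    {K, l0, l1, l2, T0, T1, S, R, b} (by decide +kernel) (by decide +kernel)
  have i5 := mnH h {K, l0, T0, l1} {K, l0, l1, T0} (by decide +kernel)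
  linarith [h.tot, h.h010, h.h021, h.h0S, h.h1R, h.h2b, h.hL0, h.hL1, h.hL2]

/-- `S` given everything else -/
theorem rem_S (h : Hy.Base p V eK eL eB eT eP eB2 LM Lam) :
    eB - eL ≤ HH p V {K, l0, l1, l2, T0, T1, R, b, b', S}
      - HH p V {K, l0, l1, l2, T0, T1, R, b, b'} := by
  have i2 := incH h {K, l1} {K, l1, R} {K, l0, T0, l1} {K, l0, T0, l1, R}
    (by decide +kernel) (by decide +kernel)
  have i3 := incH h {K, l0} {K, l0, l2, T1} {K, l0, T0, l1, R} {K, l0, T0, l1, R, l2, T1}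
    (by decide +kernel) (by decide +kernel)
  have i4 := incH h {K, l2} {K, l2, b} {K, l0, T0, l1, R, l2, T1}
    {K, l0, l1, l2, T0, T1, R, b} (by decide +kernel) (by decide +kernel)
  have i4' := incH h {K, l2} {K, l2, b'} {K, l0, l1, l2, T0, T1, R, b}
    {K, l0, l1, l2, T0, T1, R, b, b'} (by decide +kernel) (by decide +kernel)
  have i5 := mnH h {K, l0, T0, l1} {K, l0, l1, T0} (by decide +kernel)
  have i6 := mnH h {K, l0, l1, l2, T0, T1, S, R, b, b'} {K, l0, l1, l2, T0, T1, R, b, b', S}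
    (by decide +kernel)
  linarith [h.tot, h.h010, h.h021, h.h1R, h.h2b, h.h2b', h.hL0, h.hL1, h.hL2]

/-- the cost `d6` -/
theorem cost_d6 (hJ : Hy.FactJQ) : ∃ N : ℝ, 0 ≤ N ∧ ∀ {Ω : Type} [Fintype Ω] (p : Ω → ℝ)
    (V : VH → Setoid Ω) (M : ℕ) (eK eL eB eT eP eB2 Lam kk : ℝ),
    Hy.ParQ p V eK eL eB eT eP eB2 (Real.log M) Lam kk →
    ∀ (fT0 fT1 fS fR fb fb' : Ω → Fin M) (ftw ftz : Ω → ℤ),
      V T0 = Setoid.ker fT0 → V T1 = Setoid.ker fT1 → V S = Setoid.ker fS → V b = Setoid.ker fb →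
      V b' = Setoid.ker fb' → V tw = Setoid.ker ftw → V tz = Setoid.ker ftz →
      (∀ ω, 0 < p ω → ftw ω = ((fT1 ω : ℕ) : ℤ)
        + mv (((fR ω : ℕ) : ℤ) - ((fT0 ω : ℕ) : ℤ)) (fS ω) (fT0 ω) (fT1 ω)) →
      (∀ ω, 0 < p ω → ftz ω = ((fb ω : ℕ) : ℤ)
        + mv (ftw ω - ((fT1 ω : ℕ) : ℤ)) (fb' ω) (fT1 ω) (fb ω)) →
      HH p V {K, l2, z, tz, Q, kq, b, T1} - HH p V {K, l2, z, tz, Q, kq} ≤
        2 * (HH p V {K, l2, z, tz, Q, kq, b', tw} - HH p V {K, l2, z, tz, Q, kq, b'})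
          + N * (kk + 1) := by
  obtain ⟨N1, hN1, hJ⟩ := hJ
  refine ⟨50 * N1 + 300, by linarith, ?_⟩
  intro Ω _ p V M eK eL eB eT eP eB2 Lam kk h fT0 fT1 fS fR fb fb' ftw ftz hT0 hT1 hS hb hb' htw
    htz etw etz
  have hp := h.hp
  obtain ⟨j1, j2, -⟩ := hJ p V eK eL eB eT eP eB2 (Real.log M) Lam kk h
  have hB := h.toBase
  set r : Setoid Ω := ({K, l2, z, tz, Q, kq} : Finset VH).inf V with hr
  have hrtz : ∀ ω ω', 0 < p ω → 0 < p ω' → r ω ω' → ftz ω = ftz ω' := by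
    intro ω ω' _ _ g
    have g1 := (inf_rel V _ ω ω').1 g tz (by decide +kernel)
    rw [htz] at g1
    exact g1
  have main := Z3tw hp r fb fT1 fb' ftw ftz etz hrtz
  -- translation
  have t1 : CE p (Setoid.ker fb ⊓ Setoid.ker fT1) r
      = HH p V {K, l2, z, tz, Q, kq, b, T1} - HH p V {K, l2, z, tz, Q, kq} := by
    unfold CE HH
    rw [← hb, ← hT1, hr, inf_assoc, ← Finset.inf_insert, ← Finset.inf_insert]
    congr 3
    decide +kernel
  have t2 : CE p (Setoid.ker ftw) (Setoid.ker fb' ⊓ r)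
      = HH p V {K, l2, z, tz, Q, kq, b', tw} - HH p V {K, l2, z, tz, Q, kq, b'} := by
    unfold CE HH
    rw [← hb', ← htw, hr, ← Finset.inf_insert, ← Finset.inf_insert]
    congr 3 <;> decide +kernel
  have t3 : CE p (Setoid.ker fb') ((Setoid.ker fb ⊓ Setoid.ker fT1) ⊓ r)
      = HH p V {K, l2, z, tz, Q, kq, b, T1, b'} - HH p V {K, l2, z, tz, Q, kq, b, T1} := by
    unfold CE HH
    rw [← hb, ← hT1, ← hb', hr, inf_assoc, ← Finset.inf_insert, ← Finset.inf_insert,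
      ← Finset.inf_insert]
    congr 3 <;> decide +kernel
  -- near uniformity
  have k1 : Real.log M - CE p (Setoid.ker fb') ((Setoid.ker fb ⊓ Setoid.ker fT1) ⊓ r)
      ≤ N1 * kk := by
    have i := incH hB {K, l2, z, tz, Q, kq, b, T1} {K, l2, z, tz, Q, kq, b, T1, b'}
      {K, l0, l1, l2, T0, T1, b, tz, kq, Q} {K, l0, l1, l2, T0, T1, b, tz, kq, Q, b'}
      (by decide +kernel) (by decide +kernel)
    rw [t3]
    linarith
  have k2 : Ex p (fun ω => ld (fb ω) (fT1 ω)) ≤ 2 * (N1 * kk) + 2 * Real.log 5 := by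
    have g := close_ld hp (({K, l0, l1, l2, T0, T1, tz, kq, kz} : Finset VH).inf V) fb fT1
      (fun ω ω' _ _ g => by
        have g1 := (inf_rel V _ ω ω').1 g T1 (by decide +kernel)
        rw [hT1] at g1
        exact g1)
    have e : CE p (Setoid.ker fb) (({K, l0, l1, l2, T0, T1, tz, kq, kz} : Finset VH).inf V)
        = HH p V {K, l0, l1, l2, T0, T1, tz, kq, kz, b}
          - HH p V {K, l0, l1, l2, T0, T1, tz, kq, kz} := by
      unfold CE HH
      rw [← hb, ← Finset.inf_insert]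
      congr 3
      decide +kernel
    rw [e] at g
    linarith
  have k3 : Ex p (fun ω => dn M (((fb' ω : ℕ) : ℤ) - ftw ω)) ≤ 2 * kk + 2 * Real.log 5
      + Real.log 2 := by
    have g := closeZ hp (({K, l0, l1, l2, T0, T1, S, R, b} : Finset VH).inf V) fb' ftw
      (fun ω ω' h0 h0' g => by
        have g1 := cl_rel h.hr {K, l0, l1, l2, T0, T1, S, R, b} h0 h0' ((inf_rel V _ ω ω').1 g) tw
          (by decide +kernel)
        rw [htw] at g1
        exact g1)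
    have e : CE p (Setoid.ker fb') (({K, l0, l1, l2, T0, T1, S, R, b} : Finset VH).inf V)
        = HH p V {K, l0, l1, l2, T0, T1, S, R, b, b'}
          - HH p V {K, l0, l1, l2, T0, T1, S, R, b} := by
      unfold CE HH
      rw [← hb', ← Finset.inf_insert]
      congr 3
      decide +kernel
    rw [e] at g
    linarith [rem_b' hB, h.hκ]
  have k4 : Ex p (fun ω => up M (ftw ω - ((fT1 ω : ℕ) : ℤ))) ≤ Real.log 2 + Real.log 4
      + (2 * kk + 2 * Real.log 5) := by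
    have g := close_ld hp (({K, l0, l1, l2, T0, T1, R, b, b'} : Finset VH).inf V) fS fT0
      (fun ω ω' _ _ g => by
        have g1 := (inf_rel V _ ω ω').1 g T0 (by decide +kernel)
        rw [hT0] at g1
        exact g1)
    have e : CE p (Setoid.ker fS) (({K, l0, l1, l2, T0, T1, R, b, b'} : Finset VH).inf V)
        = HH p V {K, l0, l1, l2, T0, T1, R, b, b', S}
          - HH p V {K, l0, l1, l2, T0, T1, R, b, b'} := by
      unfold CE HH
      rw [← hS, ← Finset.inf_insert]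
      congr 3
      decide +kernel
    rw [e] at g
    have g2 : Ex p (fun ω => up M (ftw ω - ((fT1 ω : ℕ) : ℤ))) ≤
        Ex p (fun ω => Real.log 2 + Real.log 4 + ld (fS ω) (fT0 ω)) := by
      refine Ex_mono' hp fun ω h0 => ?_
      rw [etw ω h0, add_sub_cancel_left]
      have u1 := up_mv (((fR ω : ℕ) : ℤ) - ((fT0 ω : ℕ) : ℤ)) (fS ω) (fT0 ω) (fT1 ω)
      have u2 := up_sub (fR ω) (fT0 ω)
      linarith
    rw [Ex_add, Ex_const hp] at g2
    linarith [rem_S hB, h.hκ]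
  have l5 := log5_le
  have l2 := log2_le
  have l4 := log4_le
  have hkk := h.kk0
  rw [t1, t2] at main
  nlinarith [mul_nonneg hN1 hkk]

end HH

end Pool.Agent.Helper81.Kak
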