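import Pool.Agent.Helper8.Kak.Amb
import Pool.Agent.Helper8.Kak.Forms
import Pool.Agent.Helper8.Kak.Space

/-!
# Conditional entropies: general rules, two conditionally independent copies
-/

set_option autoImplicit false

namespace Pool.Agent.Helper81.Kak

open Pool.Agent.Helper8.Kak

section gen

variable {Ω : Type} [Fintype Ω] {p : Ω → ℝ}

theorem CE_congr' (hp : IsProb p) {r r' s s' : Setoid Ω}
    (h1 : ∀ ω ω', 0 < p ω → 0 < p ω' → s ω ω' → (r ω ω' ↔ r' ω ω'))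
    (h2 : ∀ ω ω', 0 < p ω → 0 < p ω' → (s ω ω' ↔ s' ω ω')) : CE p r s = CE p r' s' := by
  unfold CE
  rw [Ent_congr' hp h2]
  congr 1
  refine Ent_congr' hp fun ω ω' g1 g2 => ?_
  constructor
  · rintro ⟨a, b⟩
    exact ⟨(h1 ω ω' g1 g2 b).1 a, (h2 ω ω' g1 g2).1 b⟩
  · rintro ⟨a, b⟩
    have b' := (h2 ω ω' g1 g2).2 b
    exact ⟨(h1 ω ω' g1 g2 b').2 a, b'⟩

theorem CE_chain (r s t : Setoid Ω) : CE p (r ⊓ s) t = CE p r (s ⊓ t) + CE p s t := by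
  unfold CE
  rw [inf_assoc]
  ring

/-- conditioning reduces entropy -/
theorem CE_sub (hp : IsProb p) (r s t : Setoid Ω) : CE p r (s ⊓ t) ≤ CE p r t := by
  unfold CE
  linarith [submod hp r s t]

/-- finer conditioning reduces entropy (on the support) -/
theorem CE_anti (hp : IsProb p) {r s t : Setoid Ω}
    (h : ∀ ω ω', 0 < p ω → 0 < p ω' → s ω ω' → t ω ω') : CE p r s ≤ CE p r t := by
  have e : CE p r s = CE p r (s ⊓ t) :=
    CE_congr' hp (fun _ _ _ _ _ => Iff.rfl) fun ω ω' g1 g2 =>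
      ⟨fun a => ⟨a, h ω ω' g1 g2 a⟩, fun a => a.1⟩
  rw [e]
  exact CE_sub hp r s t

theorem CE_nonneg (hp : IsProb p) (r s : Setoid Ω) : 0 ≤ CE p r s := by
  unfold CE
  have : Ent p s ≤ Ent p (r ⊓ s) := Ent_mono hp inf_le_right
  linarith

theorem CE_le_inf (hp : IsProb p) (r s t : Setoid Ω) : CE p (r ⊓ s) t ≤ CE p r t + CE p s t := by
  rw [CE_chain]
  linarith [CE_sub hp r s t]

theorem CE_left (hp : IsProb p) (r s t : Setoid Ω) : CE p r t ≤ CE p (r ⊓ s) t := by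
  have h1 := CE_nonneg hp s (r ⊓ t)
  have h2 : CE p (s ⊓ r) t = CE p s (r ⊓ t) + CE p r t := CE_chain s r t
  rw [inf_comm r s]
  linarith

theorem CE_height_le (hp : IsProb p) {M : ℕ} (T : Ω → Fin M) (r : Setoid Ω) :
    CE p (Setoid.ker T) r ≤ Real.log M := Ent_height_le hp r T

theorem CE_MP {Ω' : Type} [Fintype Ω'] {p' : Ω' → ℝ} {c : Ω → Ω'} (hc : MP p p' c)
    (r s : Setoid Ω') : CE p (Setoid.comap c r) (Setoid.comap c s) = CE p' r s := by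
  unfold CE
  rw [← hc.Ent_eq s, ← hc.Ent_eq (r ⊓ s)]
  rfl

theorem Ex_MP {Ω' : Type} [Fintype Ω'] {p' : Ω' → ℝ} {c : Ω → Ω'} (hc : MP p p' c)
    (g : Ω' → ℝ) : Ex p (fun ω => g (c ω)) = Ex p' g := hc.sum_comp g

/-- expectations on the support -/
theorem Ex_mono' (hp : IsProb p) {f g : Ω → ℝ} (h : ∀ ω, 0 < p ω → f ω ≤ g ω) :
    Ex p f ≤ Ex p g := by
  unfold Ex
  refine Finset.sum_le_sum fun ω _ => ?_
  rcases (hp.1 ω).eq_or_lt with h0 | h0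
  · rw [← h0]; simp
  · exact mul_le_mul_of_nonneg_left (h ω h0) h0.le

/-- an integer variable close to a known real number -/
theorem CE_near (hp : IsProb p) (r : Setoid Ω) (X : Ω → ℤ) (c : Ω → ℝ)
    (hm : ∀ ω ω', 0 < p ω → 0 < p ω' → r ω ω' → c ω = c ω') :
    CE p (Setoid.ker X) r ≤ 2 * Ex p (fun ω => Real.log (1 + |(X ω : ℝ) - c ω|)) + Real.log 12 := by
  have h := gibbs_int hp r X
    (fun ω a => (3 * 1 * (1 + |((a - ⌊c ω⌋ : ℤ) : ℝ)| / 1) ^ 2)⁻¹) (fun ω a => by positivity) ?_ ?_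
    (fun ω => 2 * Real.log (1 + |(X ω : ℝ) - c ω|) + Real.log 12) ?_
  · unfold CE
    refine h.trans (le_of_eq ?_)
    have e : ∀ ω, p ω * (2 * Real.log (1 + |(X ω : ℝ) - c ω|) + Real.log 12)
        = 2 * (p ω * Real.log (1 + |(X ω : ℝ) - c ω|)) + p ω * Real.log 12 := fun ω => by ring
    simp only [e]
    rw [Finset.sum_add_distrib, ← Finset.mul_sum, ← Finset.sum_mul, hp.2, one_mul]
    rfl
  · intro ω ω' h1 h2 h3
    funext a
    rw [hm ω ω' h1 h2 h3]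
  · intro ω F
    have h1 := sum_heavy_weight (le_refl (1 : ℝ)) (F.map ⟨fun a => a - ⌊c ω⌋, fun a b hab => by
      simpa using hab⟩)
    rw [Finset.sum_map] at h1
    exact h1
  · intro ω _
    have h0 : (0 : ℝ) < 1 + |(X ω : ℝ) - c ω| := by positivity
    have e1 : Real.exp (-(2 * Real.log (1 + |(X ω : ℝ) - c ω|) + Real.log 12))
        = (12 * (1 + |(X ω : ℝ) - c ω|) ^ 2)⁻¹ := by
      rw [Real.exp_neg, Real.exp_add, Real.exp_log (by norm_num : (0 : ℝ) < 12), two_mul,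
        Real.exp_add, Real.exp_log h0]
      congr 1
      ring
    rw [e1]
    apply inv_anti₀ (by positivity)
    have h2 : |((X ω - ⌊c ω⌋ : ℤ) : ℝ)| ≤ |(X ω : ℝ) - c ω| + 1 := by
      push_cast
      have h3 : (X ω : ℝ) - ⌊c ω⌋ = ((X ω : ℝ) - c ω) + (c ω - ⌊c ω⌋) := by ring
      rw [h3]
      refine (abs_add_le _ _).trans ?_
      have h4 : |c ω - ⌊c ω⌋| ≤ 1 := by
        rw [abs_le]
        constructor
        · linarith [Int.floor_le (c ω)]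
        · linarith [Int.lt_floor_add_one (c ω)]
      linarith
    have h5 : 0 ≤ |((X ω - ⌊c ω⌋ : ℤ) : ℝ)| := abs_nonneg _
    have h6 : 0 ≤ |(X ω : ℝ) - c ω| := abs_nonneg _
    rw [div_one]
    nlinarith

omit [Fintype Ω] in
theorem ker_fin {M : ℕ} (T : Ω → Fin M) :
    Setoid.ker T = Setoid.ker (fun ω => ((T ω : ℕ) : ℤ)) := by
  ext a b
  rw [Setoid.ker_def, Setoid.ker_def]
  constructor
  · intro h
    rw [h]
  · intro h
    ext
    exact_mod_cast h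

/-- a height close to a known real number -/
theorem CE_near_fin (hp : IsProb p) {M : ℕ} (r : Setoid Ω) (T : Ω → Fin M) (c : Ω → ℝ)
    (hm : ∀ ω ω', 0 < p ω → 0 < p ω' → r ω ω' → c ω = c ω') :
    CE p (Setoid.ker T) r ≤ 2 * Ex p (fun ω => Real.log (1 + |((T ω : ℕ) : ℝ) - c ω|))
      + Real.log 12 := by
  rw [ker_fin]
  have h := CE_near hp r (fun ω => ((T ω : ℕ) : ℤ)) c hm
  refine h.trans (le_of_eq ?_)
  push_cast
  rfl

end gen

section copy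

variable {Ω : Type} [Fintype Ω] {p : Ω → ℝ} {A B D : Type}

/-- link over `(r, U)` -/
def fr (r : Setoid Ω) (U : Ω → A) : Ω → Quotient r × A := fun ω => (Quotient.mk r ω, U ω)

omit [Fintype Ω] in
theorem fr_eq {r : Setoid Ω} {U : Ω → A} {ω ω' : Ω} :
    fr r U ω = fr r U ω' ↔ r ω ω' ∧ U ω = U ω' := by
  unfold fr
  rw [Prod.mk.injEq]
  exact and_congr_left fun _ => Quotient.eq

/-- two conditionally independent copies over `(r, U)` -/
noncomputable def cp (p : Ω → ℝ) (r : Setoid Ω) (U : Ω → A) : Ω × Ω → ℝ :=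
  glue p p (fr r U) (fr r U)

variable (r : Setoid Ω) (U : Ω → A)

theorem cp_prob (hp : IsProb p) : IsProb (cp p r U) := glue_isProb hp hp fun _ => rfl

theorem cp_fst (hp : IsProb p) : MP (cp p r U) p Prod.fst := glue_fst hp.1 fun _ => rfl

theorem cp_snd (hp : IsProb p) : MP (cp p r U) p Prod.snd := glue_snd hp.1 fun _ => rfl

theorem cp_link {x : Ω × Ω} (h : 0 < cp p r U x) : r x.1 x.2 ∧ U x.1 = U x.2 :=
  fr_eq.1 (glue_link h)

theorem cp_r {x y : Ω × Ω} (h : 0 < cp p r U x) (h' : 0 < cp p r U y) :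
    r x.1 y.1 ↔ r x.2 y.2 := by
  have h1 := (cp_link r U h).1
  have h2 := (cp_link r U h').1
  exact ⟨fun g => r.trans (r.symm h1) (r.trans g h2), fun g => r.trans h1 (r.trans g (r.symm h2))⟩

theorem cp_U {x y : Ω × Ω} (h : 0 < cp p r U x) (h' : 0 < cp p r U y) :
    U x.1 = U y.1 ↔ U x.2 = U y.2 := by
  rw [(cp_link r U h).2, (cp_link r U h').2]

/-- entropy of two copies -/
theorem cp_Ent (hp : IsProb p) (X : Ω → B) :
    Ent (cp p r U) (Setoid.ker (fun x => X x.1) ⊓ (Setoid.ker (fun x => X x.2) ⊓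
      (Setoid.ker (fun x => U x.1) ⊓ Setoid.comap Prod.fst r)))
      = Ent p (Setoid.ker U ⊓ r) + 2 * CE p (Setoid.ker X) (Setoid.ker U ⊓ r) := by
  have h := Ent_glue hp hp (f := fr r U) (g := fr r U) (fun _ => rfl)
    (Setoid.ker X ⊓ (Setoid.ker U ⊓ r)) (Setoid.ker X ⊓ (Setoid.ker U ⊓ r))
    (fun a b _ _ h => fr_eq.2 ⟨h.2.2, h.2.1⟩) (fun a b _ _ h => fr_eq.2 ⟨h.2.2, h.2.1⟩)
  have e1 : Ent p (Setoid.ker (fr r U)) = Ent p (Setoid.ker U ⊓ r) :=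
    Ent_congr' hp fun _ _ _ _ => fr_eq.trans ⟨fun h => ⟨h.2, h.1⟩, fun h => ⟨h.2, h.1⟩⟩
  have e2 : Ent (cp p r U) (Setoid.ker (fun x => X x.1) ⊓ (Setoid.ker (fun x => X x.2) ⊓
      (Setoid.ker (fun x => U x.1) ⊓ Setoid.comap Prod.fst r)))
      = Ent (glue p p (fr r U) (fr r U)) (Setoid.comap Prod.fst (Setoid.ker X ⊓ (Setoid.ker U ⊓ r))
        ⊓ Setoid.comap Prod.snd (Setoid.ker X ⊓ (Setoid.ker U ⊓ r))) := by
    refine Ent_congr' (cp_prob r U hp) fun x y hx hy => ?_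
    have k1 := cp_r r U hx hy
    have k2 := cp_U r U hx hy
    constructor
    · rintro ⟨a1, a2, a3, a4⟩
      exact ⟨⟨a1, a3, a4⟩, ⟨a2, k2.1 a3, k1.1 a4⟩⟩
    · rintro ⟨⟨a1, a3, a4⟩, ⟨a2, _, _⟩⟩
      exact ⟨a1, a2, a3, a4⟩
  rw [e2, h, e1]
  unfold CE
  ring

/-- the second copy given the first -/
theorem cp_CE (hp : IsProb p) (X : Ω → B) :
    CE (cp p r U) (Setoid.ker (fun x => X x.2)) (Setoid.ker (fun x => X x.1) ⊓
      (Setoid.ker (fun x => U x.1) ⊓ Setoid.comap Prod.fst r))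
      = CE p (Setoid.ker X) (Setoid.ker U ⊓ r) := by
  have h := cp_Ent (p := p) r U hp X
  have e : Ent (cp p r U) (Setoid.ker (fun x => X x.2) ⊓ (Setoid.ker (fun x => X x.1) ⊓
      (Setoid.ker (fun x => U x.1) ⊓ Setoid.comap Prod.fst r)))
      = Ent (cp p r U) (Setoid.ker (fun x => X x.1) ⊓ (Setoid.ker (fun x => X x.2) ⊓
      (Setoid.ker (fun x => U x.1) ⊓ Setoid.comap Prod.fst r))) := by
    rw [inf_left_comm]
  have e1 : Ent (cp p r U) (Setoid.ker (fun x => X x.1) ⊓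
      (Setoid.ker (fun x => U x.1) ⊓ Setoid.comap Prod.fst r))
      = Ent p (Setoid.ker X ⊓ (Setoid.ker U ⊓ r)) :=
    (cp_fst r U hp).Ent_eq (Setoid.ker X ⊓ (Setoid.ker U ⊓ r))
  unfold CE at h ⊢
  rw [e, h, e1]
  ring

/-- the two-copy inequality -/
theorem two_copies (hp : IsProb p) {M : ℕ} (X : Ω → Fin M) (W : Ω → D) :
    CE p (Setoid.ker U) r ≤ 2 * CE p (Setoid.ker W) (Setoid.ker X ⊓ r)
      + 2 * (Real.log M - CE p (Setoid.ker X) (Setoid.ker U ⊓ r))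
      + CE (cp p r U) (Setoid.ker (fun x => U x.1)) (Setoid.ker (fun x => W x.1) ⊓
        (Setoid.ker (fun x => W x.2) ⊓ (Setoid.ker (fun x => X x.1) ⊓ (Setoid.ker (fun x => X x.2)
          ⊓ Setoid.comap Prod.fst r)))) := by
  have hq := cp_prob (p := p) r U hp
  have h1 := cp_Ent (p := p) r U hp X
  have h2 : Ent (cp p r U) (Setoid.comap Prod.fst r) = Ent p r := (cp_fst r U hp).Ent_eq r
  have h3 := CE_height_le hq (fun x : Ω × Ω => X x.2) (Setoid.comap Prod.fst r)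
  have h4 := CE_height_le hq (fun x : Ω × Ω => X x.1) (Setoid.ker (fun x : Ω × Ω => X x.2) ⊓
    Setoid.comap Prod.fst r)
  have h6 : CE (cp p r U) (Setoid.ker (fun x : Ω × Ω => W x.1)) (Setoid.ker (fun x : Ω × Ω => X x.1)
      ⊓ Setoid.comap Prod.fst r) = CE p (Setoid.ker W) (Setoid.ker X ⊓ r) :=
    CE_MP (cp_fst r U hp) (Setoid.ker W) (Setoid.ker X ⊓ r)
  have h7 : CE (cp p r U) (Setoid.ker (fun x : Ω × Ω => W x.2)) (Setoid.ker (fun x : Ω × Ω => X x.2)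
      ⊓ Setoid.comap Prod.fst r) = CE p (Setoid.ker W) (Setoid.ker X ⊓ r) := by
    rw [← CE_MP (cp_snd r U hp) (Setoid.ker W) (Setoid.ker X ⊓ r)]
    refine CE_congr' hq (fun _ _ _ _ _ => Iff.rfl) fun x y hx hy => ?_
    have k := cp_r r U hx hy
    exact ⟨fun a => ⟨a.1, k.1 a.2⟩, fun a => ⟨a.1, k.2 a.2⟩⟩
  generalize cp p r U = q at *
  generalize Setoid.ker (fun x : Ω × Ω => U x.1) = U1 at *
  generalize Setoid.ker (fun x : Ω × Ω => W x.1) = W1 at *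
  generalize Setoid.ker (fun x : Ω × Ω => W x.2) = W2 at *
  generalize Setoid.ker (fun x : Ω × Ω => X x.1) = X1 at *
  generalize Setoid.ker (fun x : Ω × Ω => X x.2) = X2 at *
  generalize Setoid.comap Prod.fst r = ρ at *
  -- U given both heights
  have h5 : CE q U1 (X1 ⊓ (X2 ⊓ ρ)) = CE p (Setoid.ker U) r
      + 2 * CE p (Setoid.ker X) (Setoid.ker U ⊓ r) - (CE q X1 (X2 ⊓ ρ) + CE q X2 ρ) := by
    have e : Ent q (U1 ⊓ (X1 ⊓ (X2 ⊓ ρ))) = Ent q (X1 ⊓ (X2 ⊓ (U1 ⊓ ρ))) := by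
      congr 1
      rw [inf_left_comm U1 X1, inf_left_comm U1 X2]
    unfold CE at h1 ⊢
    rw [e, h1, h2]
    ring
  have h8 : CE q U1 (X1 ⊓ (X2 ⊓ ρ)) ≤ CE q (U1 ⊓ (W1 ⊓ W2)) (X1 ⊓ (X2 ⊓ ρ)) :=
    CE_left hq _ _ _
  have h9 : CE q (U1 ⊓ (W1 ⊓ W2)) (X1 ⊓ (X2 ⊓ ρ))
      = CE q U1 (W1 ⊓ (W2 ⊓ (X1 ⊓ (X2 ⊓ ρ)))) + CE q (W1 ⊓ W2) (X1 ⊓ (X2 ⊓ ρ)) := by
    rw [CE_chain, inf_assoc]
  have h10 : CE q (W1 ⊓ W2) (X1 ⊓ (X2 ⊓ ρ)) ≤ CE q W1 (X1 ⊓ (X2 ⊓ ρ)) + CE q W2 (X1 ⊓ (X2 ⊓ ρ)) :=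
    CE_le_inf hq _ _ _
  have h11 : CE q W1 (X1 ⊓ (X2 ⊓ ρ)) ≤ CE q W1 (X1 ⊓ ρ) := by
    rw [inf_left_comm]
    exact CE_sub hq _ _ _
  have h12 : CE q W2 (X1 ⊓ (X2 ⊓ ρ)) ≤ CE q W2 (X2 ⊓ ρ) := CE_sub hq _ _ _
  linarith

end copy

end Pool.Agent.Helper81.Kak
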