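import Pool.Agent.Helper6.Kak.Defs
import Pool.Agent.Helper6.Kak.Pair
import Pool.Agent.Helper8.Kak.L1Cost
import Pool.Agent.Helper8.Kak.Move
import Pool.Agent.Helper81.Kak.CEl

/-!
# From pair systems to arbitrary systems
-/

set_option autoImplicit false

namespace Pool.Agent.Helper81.Kak

open Pool.Agent.Helper8.Kak Pool.Agent.Helper6.Kak

/-! ### scales -/

section scale

variable {m M : ℕ} (G : Geo m M)

theorem sc_spec (l l' : G.L) : ∀ i, |G.v l i - G.v l' i| ≤ 2 * (1 / 2) ^ sc G l l' := by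
  classical
  unfold sc
  refine Nat.findGreatest_spec (P := fun k => ∀ i, |G.v l i - G.v l' i| ≤ 2 * (1 / 2) ^ k)
    (Nat.zero_le _) ?_
  intro i
  have h1 := abs_le.1 (G.hv l i)
  have h2 := abs_le.1 (G.hv l' i)
  rw [pow_zero, abs_le]
  constructor <;> linarith [h1.1, h1.2, h2.1, h2.2]

theorem sc_le (l l' : G.L) : sc G l l' ≤ JJ G.δ := by
  classical
  unfold sc
  exact Nat.findGreatest_le _

theorem sc_ang (l l' : G.L) : sc G l l' = JJ G.δ ∨
    ∃ i, (1 / 2) ^ sc G l l' < |G.v l i - G.v l' i| := by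
  classical
  by_cases h : sc G l l' = JJ G.δ
  · exact Or.inl h
  · right
    have h1 : sc G l l' < JJ G.δ := lt_of_le_of_ne (sc_le G l l') h
    have h2 : ¬ ∀ i, |G.v l i - G.v l' i| ≤ 2 * (1 / 2) ^ (sc G l l' + 1) := by
      intro h3
      have h4 : sc G l l' + 1 ≤ sc G l l' := by
        have := Nat.le_findGreatest (P := fun k => ∀ i, |G.v l i - G.v l' i| ≤ 2 * (1 / 2) ^ k)
          (Nat.succ_le_of_lt h1) h3
        exact this
      omega
    push Not at h2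
    obtain ⟨i, hi⟩ := h2
    refine ⟨i, lt_of_le_of_lt (le_of_eq ?_) hi⟩
    rw [pow_succ]
    ring

theorem sc_comm (l l' : G.L) : sc G l l' = sc G l' l := by
  classical
  unfold sc
  congr 1
  funext k
  simp only [abs_sub_comm (G.v l _) (G.v l' _)]

theorem tb_comm (l l' : G.L) : tb G l l' = tb G l' l := by
  unfold tb
  rw [sc_comm G l l', Sym2.eq_swap]

/-- two lines with the same scale and tube have close directions -/
theorem tb_tub {l l' q q' : G.L} (hk : sc G l l' = sc G q q') (hQ : tb G l l' = tb G q q') (i : Fin m) :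
    |G.v l i - G.v q i| ≤ 8 * (1 / 2) ^ sc G l l' := by
  have hpos : (0 : ℝ) < (1 / 2) ^ sc G l l' := by positivity
  unfold tb at hQ
  rw [← hk] at hQ
  have near : ∀ a b : G.L, cc G (sc G l l') a = cc G (sc G l l') b →
      |G.v a i - G.v b i| ≤ (1 / 2) ^ sc G l l' := by
    intro a b h
    have h1 : cell ((1 / 2) ^ sc G l l') (G.v a) = cell ((1 / 2) ^ sc G l l') (G.v b) :=
      congrArg Prod.snd h
    exact floor_eq_near hpos (congrFun h1 i)
  rcases Sym2.eq_iff.1 hQ with ⟨h1, -⟩ | ⟨h1, -⟩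
  · have := near _ _ h1
    linarith
  · have h2 := near _ _ h1
    have h3 := sc_spec G q q' i
    rw [← hk] at h3
    have h4 : G.v l i - G.v q i = (G.v l i - G.v q' i) + (G.v q' i - G.v q i) := by ring
    rw [h4]
    refine (abs_add_le _ _).trans ?_
    rw [abs_sub_comm (G.v q' i)]
    linarith

end scale

/-! ### the pair system -/

section Z

variable {m M : ℕ} {G : Geo m M} (S : Sys G)

theorem pZ_prob : IsProb (pZ S) := glue_isProb S.hp S.hp fun _ => rfl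

theorem pZ_fst : MP (pZ S) S.p Prod.fst := glue_fst S.hp.1 fun _ => rfl

theorem pZ_snd : MP (pZ S) S.p Prod.snd := glue_snd S.hp.1 fun _ => rfl

theorem pZ_link {z : S.Ω × S.Ω} (h : 0 < pZ S z) : S.K z.1 z.2 ∧ S.T z.1 = S.T z.2 ∧
    G.P (S.l z.1) (S.T z.1) = G.P (S.l z.2) (S.T z.2) := fP_eq.1 (glue_link h)

theorem pZ_swap_eq (z : S.Ω × S.Ω) : pZ S z.swap = pZ S z := by
  unfold pZ glue
  simp only [Prod.fst_swap, Prod.snd_swap]
  by_cases h : fP S.K S.l S.T G.P z.1 = fP S.K S.l S.T G.P z.2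
  · rw [if_pos h, if_pos h.symm, h]
    ring
  · rw [if_neg h, if_neg (fun h' => h h'.symm)]

theorem pZ_swap : MP (pZ S) (pZ S) Prod.swap := by
  classical
  intro b
  unfold law
  rw [Finset.sum_eq_single b.swap]
  · rw [if_pos (Prod.swap_swap b), pZ_swap_eq]
  · intro c _ hc
    rw [if_neg]
    intro h
    apply hc
    rw [← h, Prod.swap_swap]
  · intro h
    exact absurd (Finset.mem_univ _) h

/-- the pair system of a system -/
noncomputable def Zs : PSys G where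
  Ω := S.Ω × S.Ω
  fin := inferInstance
  p := pZ S
  hp := pZ_prob S
  K := Setoid.comap Prod.fst S.K ⊓ Setoid.ker (kZ S) ⊓ Setoid.ker (QZ S)
  l := fun z => S.l z.1
  T := fun z => S.T z.1
  σ := Prod.swap
  k := kZ S
  mp := pZ_swap S
  Kσ := fun z hz => ⟨⟨(pZ_link S hz).1, sc_comm G _ _⟩, tb_comm G _ _⟩
  Tσ := fun z hz => (pZ_link S hz).2.1.symm
  Pσ := fun z hz => by
    obtain ⟨-, h2, h3⟩ := pZ_link S hz
    rw [h3, h2]
    rfl
  kK := fun z z' _ _ h => h.1.2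
  kJ := fun z _ => sc_le G _ _
  tub := fun z z' _ _ h i => tb_tub G h.1.2 h.2 i
  ang := fun z _ => sc_ang G _ _

end Z

/-! ### costs -/

theorem ell_ge (M : ℕ) : 1 ≤ ell M := by
  unfold ell
  rw [Real.le_log_iff_exp_le (by have := Real.log_natCast_nonneg M; linarith)]
  have h1 := Real.exp_one_lt_d9
  have h2 := Real.log_natCast_nonneg M
  linarith

theorem JJ_le {m M : ℕ} (G : Geo m M) : ((JJ G.δ : ℕ) : ℝ) ≤ Real.log M / Real.log 2 + 1 := by
  have hM : (0 : ℝ) < M := by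
    rcases Nat.eq_zero_or_pos M with h | h
    · have h1 := G.hM
      have h' : (M : ℝ) = 0 := by exact_mod_cast h
      rw [h', mul_zero] at h1
      norm_num at h1
    · exact_mod_cast h
  have hl2 : 0 < Real.log 2 := Real.log_pos (by norm_num)
  have h1 : 1 / G.δ ≤ M := by
    rw [div_le_iff₀ G.hδ, mul_comm]
    exact G.hM
  have h0 : 1 ≤ 1 / G.δ := by
    rw [le_div_iff₀ G.hδ, one_mul]
    exact G.hδ1
  have h2 : 0 ≤ Real.logb 2 (1 / G.δ) := Real.logb_nonneg (by norm_num) h0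
  have h3 := (Nat.ceil_lt_add_one h2).le
  unfold JJ
  refine h3.trans ?_
  have h4 : Real.logb 2 (1 / G.δ) ≤ Real.log M / Real.log 2 := by
    unfold Real.logb
    exact div_le_div_of_nonneg_right (Real.log_le_log (by linarith) h1) hl2.le
  linarith

theorem log_JJ {m M : ℕ} (G : Geo m M) : Real.log ((JJ G.δ : ℕ) + 1 : ℝ) ≤ 2 * ell M := by
  have h1 := JJ_le G
  have hM := Real.log_natCast_nonneg M
  have hl2 : 0.69 < Real.log 2 := by have := Real.log_two_gt_d9; linarith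
  have h2 : Real.log M / Real.log 2 ≤ 2 * Real.log M := by
    rw [div_le_iff₀ (by linarith)]
    nlinarith
  have h3 : Real.log ((JJ G.δ : ℕ) + 1 : ℝ) ≤ Real.log (2 * (Real.log M + 3)) := by
    refine Real.log_le_log (by positivity) ?_
    linarith
  rw [Real.log_mul (by norm_num) (by linarith)] at h3
  have h4 := ell_ge M
  have h5 := log2_le
  unfold ell at h4 ⊢
  linarith

/-- `δ` is comparable to the last dyadic scale -/
theorem δ_le_scale {m M : ℕ} (G : Geo m M) {k : ℕ} (hk : k ≤ JJ G.δ) : G.δ ≤ 2 * (1 / 2) ^ k := by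
  have hδ := G.hδ
  have h0 : 1 ≤ 1 / G.δ := by
    rw [le_div_iff₀ G.hδ, one_mul]
    exact G.hδ1
  have h2 : 0 ≤ Real.logb 2 (1 / G.δ) := Real.logb_nonneg (by norm_num) h0
  have h3 : (k : ℝ) ≤ Real.logb 2 (1 / G.δ) + 1 := by
    have h4 := (Nat.ceil_lt_add_one h2).le
    have h5 : (k : ℝ) ≤ ((JJ G.δ : ℕ) : ℝ) := by exact_mod_cast hk
    unfold JJ at h5
    linarith
  have h4 : (2 : ℝ) ^ (k : ℝ) ≤ 2 ^ (Real.logb 2 (1 / G.δ) + 1) :=
    Real.rpow_le_rpow_of_exponent_le (by norm_num) h3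
  rw [Real.rpow_add (by norm_num), Real.rpow_logb (by norm_num) (by norm_num) (by positivity),
    Real.rpow_one, Real.rpow_natCast] at h4
  have h5 : (0 : ℝ) < 2 ^ k := by positivity
  have h6 : ((1 : ℝ) / 2) ^ k = 1 / 2 ^ k := by rw [div_pow, one_pow]
  rw [h6, mul_one_div, le_div_iff₀ h5]
  have h7 : (2 : ℝ) ^ k * G.δ ≤ 1 / G.δ * 2 * G.δ := mul_le_mul_of_nonneg_right h4 hδ.le
  have h8 : 1 / G.δ * 2 * G.δ = 2 := by field_simp
  linarith

section costs

variable {m M : ℕ} {G : Geo m M} {Ω : Type} [Fintype Ω] {p : Ω → ℝ}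

/-- a scale costs at most `log (J + 1)` -/
theorem CE_scale (hp : IsProb p) (r : Setoid Ω) (k : Ω → ℕ) (hk : ∀ ω, k ω ≤ JJ G.δ) :
    CE p (Setoid.ker k) r ≤ 2 * ell M := by
  have h := Ent_height_le hp r (fun ω => (⟨k ω, Nat.lt_succ_of_le (hk ω)⟩ : Fin (JJ G.δ + 1)))
  have e : Setoid.ker (fun ω => (⟨k ω, Nat.lt_succ_of_le (hk ω)⟩ : Fin (JJ G.δ + 1)))
      = Setoid.ker k := by
    ext a b
    simp [Setoid.ker_def]
  rw [e] at h
  unfold CE
  refine h.trans ?_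
  have h2 := log_JJ G
  push_cast
  exact h2

/-- the tube of two lines through a common point, given one of the lines and the scale -/
theorem CE_tube (hp : IsProb p) (r : Setoid Ω) (l l' : Ω → G.L) (T : Ω → Fin M)
    (hP : ∀ ω, 0 < p ω → G.P (l ω) (T ω) = G.P (l' ω) (T ω))
    (hr : ∀ ω ω', 0 < p ω → 0 < p ω' → r ω ω' → l ω = l ω' ∧ sc G (l ω) (l' ω) = sc G (l ω') (l' ω')) :
    CE p (Setoid.ker (fun ω => tb G (l ω) (l' ω))) r ≤ 6 * m := by
  set k : Ω → ℕ := fun ω => sc G (l ω) (l' ω) with hk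
  -- closeness of the lines
  have near : ∀ ω, 0 < p ω → ∀ i, |G.v (l ω) i - G.v (l' ω) i| ≤ 2 * (1 / 2) ^ k ω ∧
      |G.x (l ω) i - G.x (l' ω) i| ≤ 4 * (1 / 2) ^ k ω := by
    intro ω h0 i
    have h1 := sc_spec G (l ω) (l' ω) i
    have h2 := δ_le_scale G (sc_le G (l ω) (l' ω))
    have h3 := floor_eq_near G.hδ (congrFun (hP ω h0) i)
    unfold pnt at h3
    refine ⟨h1, ?_⟩
    have h4 : G.x (l ω) i - G.x (l' ω) i = (G.x (l ω) i + ht (T ω) * G.v (l ω) i
      - (G.x (l' ω) i + ht (T ω) * G.v (l' ω) i)) - ht (T ω) * (G.v (l ω) i - G.v (l' ω) i) := by ring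
    rw [h4]
    refine (abs_sub _ _).trans ?_
    rw [abs_mul, abs_of_nonneg (ht_nonneg (T ω))]
    have h5 : ht (T ω) * |G.v (l ω) i - G.v (l' ω) i| ≤ 1 * (2 * (1 / 2) ^ sc G (l ω) (l' ω)) :=
      mul_le_mul (ht_lt_one _).le h1 (abs_nonneg _) zero_le_one
    simp only [hk]
    linarith
  have c1 : CE p (Setoid.ker (fun ω => cell ((1 / 2) ^ k ω) (G.x (l' ω)))) r
      ≤ m * Ex p (fun _ => Real.log (2 * 9 + 1)) := by
    refine CE_vec hp r (fun ω => cell ((1 / 2) ^ k ω) (G.x (l' ω))) (fun _ => 9)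
      (fun _ => by norm_num) (fun _ _ _ _ _ => rfl) fun ω ω' h0 h0' h i => ?_
    obtain ⟨g1, g2⟩ := hr ω ω' h0 h0' h
    have hpos : (0 : ℝ) < (1 / 2) ^ k ω := by positivity
    have e2 : k ω' = k ω := g2.symm
    have n1 := (near ω h0 i).2
    have n2 := (near ω' h0' i).2
    rw [e2, ← g1] at n2
    have n3 : |G.x (l' ω) i - G.x (l' ω') i| ≤ 8 * (1 / 2) ^ k ω := by
      have : G.x (l' ω) i - G.x (l' ω') i = (G.x (l ω) i - G.x (l' ω') i)
        - (G.x (l ω) i - G.x (l' ω) i) := by ring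
      rw [this]
      refine (abs_sub _ _).trans ?_
      linarith
    simp only [e2]
    have e1 : ∀ u : Fin m → ℝ, ((cell ((1 / 2) ^ k ω) u i : ℤ) : ℝ) = (⌊u i / (1 / 2) ^ k ω⌋ : ℝ) :=
      fun _ => rfl
    rw [e1, e1]
    have n4 : |G.x (l' ω) i / (1 / 2) ^ k ω - G.x (l' ω') i / (1 / 2) ^ k ω| ≤ 8 := by
      rw [← sub_div, abs_div, abs_of_pos hpos, div_le_iff₀ hpos]
      exact n3
    have a1 := Int.floor_le (G.x (l' ω) i / (1 / 2) ^ k ω)
    have a2 := Int.lt_floor_add_one (G.x (l' ω) i / (1 / 2) ^ k ω)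
    have a3 := Int.floor_le (G.x (l' ω') i / (1 / 2) ^ k ω)
    have a4 := Int.lt_floor_add_one (G.x (l' ω') i / (1 / 2) ^ k ω)
    rw [abs_le] at n4 ⊢
    constructor <;> linarith [n4.1, n4.2]
  have c2 : CE p (Setoid.ker (fun ω => cell ((1 / 2) ^ k ω) (G.v (l' ω)))) r
      ≤ m * Ex p (fun _ => Real.log (2 * 9 + 1)) := by
    refine CE_vec hp r (fun ω => cell ((1 / 2) ^ k ω) (G.v (l' ω))) (fun _ => 9)
      (fun _ => by norm_num) (fun _ _ _ _ _ => rfl) fun ω ω' h0 h0' h i => ?_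
    obtain ⟨g1, g2⟩ := hr ω ω' h0 h0' h
    have hpos : (0 : ℝ) < (1 / 2) ^ k ω := by positivity
    have e2 : k ω' = k ω := g2.symm
    have n1 := (near ω h0 i).1
    have n2 := (near ω' h0' i).1
    rw [e2, ← g1] at n2
    have n3 : |G.v (l' ω) i - G.v (l' ω') i| ≤ 8 * (1 / 2) ^ k ω := by
      have : G.v (l' ω) i - G.v (l' ω') i = (G.v (l ω) i - G.v (l' ω') i)
        - (G.v (l ω) i - G.v (l' ω) i) := by ring
      rw [this]
      refine (abs_sub _ _).trans ?_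
      linarith
    simp only [e2]
    have e1 : ∀ u : Fin m → ℝ, ((cell ((1 / 2) ^ k ω) u i : ℤ) : ℝ) = (⌊u i / (1 / 2) ^ k ω⌋ : ℝ) :=
      fun _ => rfl
    rw [e1, e1]
    have n4 : |G.v (l' ω) i / (1 / 2) ^ k ω - G.v (l' ω') i / (1 / 2) ^ k ω| ≤ 8 := by
      rw [← sub_div, abs_div, abs_of_pos hpos, div_le_iff₀ hpos]
      exact n3
    have a1 := Int.floor_le (G.v (l' ω) i / (1 / 2) ^ k ω)
    have a2 := Int.lt_floor_add_one (G.v (l' ω) i / (1 / 2) ^ k ω)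
    have a3 := Int.floor_le (G.v (l' ω') i / (1 / 2) ^ k ω)
    have a4 := Int.lt_floor_add_one (G.v (l' ω') i / (1 / 2) ^ k ω)
    rw [abs_le] at n4 ⊢
    constructor <;> linarith [n4.1, n4.2]
  have c3 : CE p (Setoid.ker (fun ω => tb G (l ω) (l' ω))) r ≤
      CE p (Setoid.ker (fun ω => cell ((1 / 2) ^ k ω) (G.x (l' ω))) ⊓
        Setoid.ker (fun ω => cell ((1 / 2) ^ k ω) (G.v (l' ω)))) r := by
    refine CE_mono hp fun ω ω' h0 h0' h h' => ?_
    obtain ⟨g1, g2⟩ := hr ω ω' h0 h0' h'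
    show tb G (l ω) (l' ω) = tb G (l ω') (l' ω')
    unfold tb
    have e3 : cc G (sc G (l ω) (l' ω)) (l' ω) = cc G (sc G (l ω') (l' ω')) (l' ω') :=
      Prod.ext h.1 h.2
    rw [e3, g1, ← g2, ← g1]
  have c4 := CE_le_inf hp (Setoid.ker (fun ω => cell ((1 / 2) ^ k ω) (G.x (l' ω))))
    (Setoid.ker (fun ω => cell ((1 / 2) ^ k ω) (G.v (l' ω)))) r
  rw [Ex_const hp] at c1 c2
  have l19 : Real.log (2 * 9 + 1) ≤ 3 := by
    have h1 : Real.log (2 * 9 + 1) ≤ Real.log (Real.exp 1 ^ 3) := by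
      refine Real.log_le_log (by norm_num) ?_
      have := Real.exp_one_gt_d9
      have h2 : (2.7 : ℝ) ^ 3 ≤ Real.exp 1 ^ 3 := pow_le_pow_left₀ (by norm_num) (by linarith) 3
      norm_num at h2 ⊢
      linarith
    rw [Real.log_pow, Real.log_exp] at h1
    simpa using h1
  have hm := mul_le_mul_of_nonneg_left l19 (Nat.cast_nonneg (α := ℝ) m)
  refine c3.trans (c4.trans ((add_le_add c1 c2).trans ?_))
  linarith

end costs

/-! ### bookkeeping -/

/-- the random variables on the glued space -/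
inductive VZ
  | K | l | l' | T | P | k | Q
deriving DecidableEq

namespace Zb

open VZ

/-- functional dependencies -/
def rules : List (VZ × List (Finset VZ)) :=
  [(P, [{l, T}, {l', T}]), (k, [{l, l'}]), (Q, [{l, l'}])]

variable {Ω : Type} [Fintype Ω] {p : Ω → ℝ} {V : VZ → Setoid Ω}
  {eK eL eB eT eP LM kk : ℝ}

/-- the facts used -/
structure H (p : Ω → ℝ) (V : VZ → Setoid Ω) (eK eL eB eT eP LM kk : ℝ) : Prop where
  hp : IsProb p
  hr : Valid p V rules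
  hK : HH p V {K} = eK
  hL : HH p V {K, l} = eL
  hB : HH p V {K, l, T} = eB
  hB' : HH p V {K, l', T} = eB
  hT : HH p V {K, T} = eT
  hP : HH p V {K, T, P} = eP
  tot : 2 * eB - eP ≤ HH p V {K, l, l', T}
  ck : HH p V {K, k} - HH p V {K} ≤ kk
  cQ : HH p V {l, k, Q} - HH p V {l, k} ≤ kk
  cQ' : HH p V {l', k, Q} - HH p V {l', k} ≤ kk
  eTM : eT - eK ≤ LM

theorem H.inc (h : H p V eK eL eB eT eP LM kk) (A A' B B' : Finset VZ)
    (hB' : B' ⊆ cl rules (A' ∪ B)) (hA : A ⊆ cl rules A' ∩ cl rules B) :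
    HH p V B' - HH p V B ≤ HH p V A' - HH p V A := HH_INC h.hp h.hr A A' B B' hB' hA

theorem H.mn (h : H p V eK eL eB eT eP LM kk) (A B : Finset VZ)
    (hA : A ⊆ cl rules B) : HH p V A ≤ HH p V B := HH_MN h.hp h.hr A B hA

theorem H.main (h : H p V eK eL eB eT eP LM kk) :
    (eL - eK) - (HH p V {K, k, Q} - HH p V {K, k}) - kk ≤ HH p V {K, k, Q, l} - HH p V {K, k, Q} ∧
    HH p V {K, k, Q, T, P} - HH p V {K, k, Q, T} ≤
      (eP - eT) - (HH p V {K, k, Q} - HH p V {K, k}) + (LM - (eB - eL)) + 6 * kk ∧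
    LM - (HH p V {K, k, Q, l, T} - HH p V {K, k, Q, l}) ≤ (LM - (eB - eL)) + 2 * kk ∧
    2 * HH p V {K, k, Q, l, T} - HH p V {K, k, Q, T, P} - HH p V {K, k, Q, l, l', T} ≤ 4 * kk := by
  have a1 := h.mn {K, l} {K, k, Q, l} (by decide +kernel)
  -- the families with the line
  have b1 := h.inc {K} {K, k} {K, l} {K, l, k} (by decide +kernel) (by decide +kernel)
  have b2 := h.inc {l, k} {l, k, Q} {K, l, k} {K, k, Q, l} (by decide +kernel) (by decide +kernel)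
  have b3 := h.inc {K, l} {K, k, Q, l} {K, l, T} {K, k, Q, l, T} (by decide +kernel)
    (by decide +kernel)
  have b4 := h.inc {K} {K, k} {K, l', T} {K, l', T, k} (by decide +kernel) (by decide +kernel)
  have b5 := h.inc {l', k} {l', k, Q} {K, l', T, k} {K, k, Q, l', T} (by decide +kernel)
    (by decide +kernel)
  -- the tube and the point
  have c1 := HH_SM h.hp h.hr {K, k, Q, l, T} {K, k, Q, l', T} {K, l, l', T} {K, k, Q, T, P}
    (by decide +kernel) (by decide +kernel)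
  have c2 := h.inc {K, k, Q} {K, k, Q, T} {K, k, Q, l} {K, k, Q, l, T} (by decide +kernel)
    (by decide +kernel)
  have c3 := h.mn {K} {K, k} (by decide +kernel)
  have c4 := h.mn {K, l, T} {K, k, Q, l, T} (by decide +kernel)
  have c5 := h.mn {K, T, P} {K, k, Q, T, P} (by decide +kernel)
  have c6 := h.mn {K, l, l', T} {K, k, Q, l, l', T} (by decide +kernel)
  have := h.hK
  have := h.hL
  have := h.hB
  have := h.hB'
  have := h.hT
  have := h.hP
  have := h.tot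
  have := h.ck
  have := h.cQ
  have := h.cQ'
  have := h.eTM
  refine ⟨by linarith, by linarith, by linarith, by linarith⟩

end Zb

/-! ### instantiation -/

section inst

variable {m M : ℕ} {G : Geo m M} (S : Sys G)

/-- the random variables on the glued space -/
noncomputable def VVZ : VZ → Setoid (S.Ω × S.Ω)
  | .K => Setoid.comap Prod.fst S.K
  | .l => Setoid.ker (fun z => S.l z.1)
  | .l' => Setoid.ker (fun z => S.l z.2)
  | .T => Setoid.ker (fun z => S.T z.1)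
  | .P => Setoid.ker (fun z => G.P (S.l z.1) (S.T z.1))
  | .k => Setoid.ker (kZ S)
  | .Q => Setoid.ker (QZ S)

@[simp] theorem VVZ_K (y y') : VVZ S .K y y' ↔ S.K y.1 y'.1 := Iff.rfl
@[simp] theorem VVZ_l (y y') : VVZ S .l y y' ↔ S.l y.1 = S.l y'.1 := Iff.rfl
@[simp] theorem VVZ_l' (y y') : VVZ S .l' y y' ↔ S.l y.2 = S.l y'.2 := Iff.rfl
@[simp] theorem VVZ_T (y y') : VVZ S .T y y' ↔ S.T y.1 = S.T y'.1 := Iff.rfl
@[simp] theorem VVZ_P (y y') : VVZ S .P y y' ↔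
  G.P (S.l y.1) (S.T y.1) = G.P (S.l y'.1) (S.T y'.1) := Iff.rfl
@[simp] theorem VVZ_k (y y') : VVZ S .k y y' ↔ kZ S y = kZ S y' := Iff.rfl
@[simp] theorem VVZ_Q (y y') : VVZ S .Q y y' ↔ QZ S y = QZ S y' := Iff.rfl

theorem VVZ_valid : Valid (pZ S) (VVZ S) Zb.rules := by
  intro r hr D hD y y' hy hy' h
  obtain ⟨-, a1, a2⟩ := pZ_link S hy
  obtain ⟨-, b1, b2⟩ := pZ_link S hy'
  simp only [Zb.rules, List.mem_cons, List.not_mem_nil, or_false] at hr
  rcases hr with rfl | rfl | rfl <;> simp only [List.mem_cons, List.not_mem_nil, or_false] at hD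
  · rcases hD with rfl | rfl <;>
      simp only [Finset.mem_insert, Finset.mem_singleton, forall_eq_or_imp, forall_eq, VVZ_l,
        VVZ_T, VVZ_l'] at h ⊢
    · rw [VVZ_P, h.1, h.2]
    · rw [VVZ_P, a2, b2, ← a1, ← b1, h.1, h.2]
  · subst hD
    simp only [Finset.mem_insert, Finset.mem_singleton, forall_eq_or_imp, forall_eq, VVZ_l,
        VVZ_l'] at h ⊢
    rw [VVZ_k]
    unfold kZ
    rw [h.1, h.2]
  · subst hD
    simp only [Finset.mem_insert, Finset.mem_singleton, forall_eq_or_imp, forall_eq, VVZ_l,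
        VVZ_l'] at h ⊢
    rw [VVZ_Q]
    unfold QZ
    rw [h.1, h.2]

theorem ent_pZ : Ent (pZ S) (Setoid.comap Prod.fst S.rB ⊓ Setoid.comap Prod.snd S.rB)
    = 2 * S.eB - S.eP := by
  have h := Ent_glue S.hp S.hp (f := fP S.K S.l S.T G.P) (g := fP S.K S.l S.T G.P) (fun _ => rfl)
    S.rB S.rB (fun _ _ _ _ h => S.rB_fP h) (fun _ _ _ _ h => S.rB_fP h)
  rw [S.ker_fP] at h
  have e : Ent S.p S.rB = S.eB := rfl
  rw [e] at h
  have e2 : Ent (pZ S) (Setoid.comap Prod.fst S.rB ⊓ Setoid.comap Prod.snd S.rB)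
    = S.eB + S.eB - S.eP := h
  rw [e2]
  ring

/-- the cost -/
noncomputable def kz (m M : ℕ) : ℝ := (6 * m + 2) * ell M

theorem kz_ge (m M : ℕ) : 2 * ell M ≤ kz m M ∧ 6 * (m : ℝ) ≤ kz m M := by
  have h1 := ell_ge M
  have h2 : (0 : ℝ) ≤ m := Nat.cast_nonneg m
  unfold kz
  constructor <;> nlinarith

theorem VVZ_H : Zb.H (pZ S) (VVZ S) S.eK S.eL S.eB S.eT S.eP (Real.log M) (kz m M) where
  hp := pZ_prob S
  hr := VVZ_valid S
  hK := HH_coord (pZ_prob S) (pZ_fst S) _ _ S.K fun y y' _ _ => by simp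
  hL := HH_coord (pZ_prob S) (pZ_fst S) _ _ (S.K ⊓ Setoid.ker S.l) fun y y' _ _ => by
    simp [Setoid.inf_iff_and, Setoid.ker_def]
  hB := HH_coord (pZ_prob S) (pZ_fst S) _ _ (S.K ⊓ Setoid.ker S.l ⊓ Setoid.ker S.T)
    fun y y' _ _ => by simp [Setoid.inf_iff_and, Setoid.ker_def, and_assoc]
  hB' := HH_coord (pZ_prob S) (pZ_snd S) _ _ (S.K ⊓ Setoid.ker S.l ⊓ Setoid.ker S.T)
    fun y y' h h' => by
      obtain ⟨a0, a1, a2⟩ := pZ_link S h
      obtain ⟨b0, b1, b2⟩ := pZ_link S h'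
      have k := Kcongr a0 b0
      simp [Setoid.inf_iff_and, Setoid.ker_def, and_assoc, a1, b1, k]
  hT := HH_coord (pZ_prob S) (pZ_fst S) _ _ (S.K ⊓ Setoid.ker S.T)
    fun y y' _ _ => by simp [Setoid.inf_iff_and, Setoid.ker_def]
  hP := HH_coord (pZ_prob S) (pZ_fst S) _ _
    (S.K ⊓ Setoid.ker S.T ⊓ Setoid.ker (fun ω => G.P (S.l ω) (S.T ω)))
    fun y y' _ _ => by simp [Setoid.inf_iff_and, Setoid.ker_def, and_assoc]
  tot := by
    rw [← ent_pZ]
    unfold HH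
    refine Ent_mono' (pZ_prob S) fun y y' h h' h1 => ?_
    obtain ⟨a0, a1, a2⟩ := pZ_link S h
    obtain ⟨b0, b1, b2⟩ := pZ_link S h'
    have k := Kcongr a0 b0
    rw [inf_rel] at h1
    simp only [Finset.mem_insert, Finset.mem_singleton, forall_eq_or_imp, forall_eq, VVZ_K, VVZ_l,
      VVZ_l', VVZ_T] at h1
    obtain ⟨g1, g2, g3, g4⟩ := h1
    refine ⟨⟨⟨g1, g2⟩, g4⟩, ⟨⟨k.2 g1, g3⟩, ?_⟩⟩
    show S.T y.2 = S.T y'.2
    rw [← a1, ← b1, g4]
  ck := by
    refine le_trans ?_ (kz_ge m M).1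
    refine cost_le (VVZ S) _ _ VZ.k (by decide +kernel) _ fun r _ => ?_
    exact CE_scale (G := G) (pZ_prob S) r (kZ S) fun z => sc_le G _ _
  cQ := by
    refine le_trans ?_ (kz_ge m M).2
    refine cost_le (VVZ S) _ _ VZ.Q (by decide +kernel) _ fun r hr => ?_
    refine CE_tube (pZ_prob S) r (fun z => S.l z.1) (fun z => S.l z.2) (fun z => S.T z.1)
      (fun z hz => ?_) (fun y y' _ _ g => ?_)
    · obtain ⟨-, a1, a2⟩ := pZ_link S hz
      rw [a2, a1]
    · have g1 := hr y y' g VZ.l (by decide +kernel)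
      have g2 := hr y y' g VZ.k (by decide +kernel)
      exact ⟨g1, g2⟩
  cQ' := by
    refine le_trans ?_ (kz_ge m M).2
    refine cost_le (VVZ S) _ _ VZ.Q (by decide +kernel) _ fun r hr => ?_
    have h := CE_tube (G := G) (pZ_prob S) r (fun z => S.l z.2) (fun z => S.l z.1)
      (fun z => S.T z.1) (fun z hz => ?_) (fun y y' _ _ g => ?_)
    · have e : (fun z : S.Ω × S.Ω => tb G (S.l z.2) (S.l z.1)) = QZ S := by
        funext z
        exact tb_comm G _ _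
      rw [e] at h
      exact h
    · obtain ⟨-, a1, a2⟩ := pZ_link S hz
      rw [a2, a1]
    · have g1 := hr y y' g VZ.l' (by decide +kernel)
      have g2 : kZ S y = kZ S y' := hr y y' g VZ.k (by decide +kernel)
      unfold kZ at g2
      rw [sc_comm G (S.l y.1), sc_comm G (S.l y'.1)] at g2
      exact ⟨g1, g2⟩
  eTM := S.eTM

/-- partition of the pair system -/
noncomputable def KZ : Setoid (S.Ω × S.Ω) :=
  Setoid.comap Prod.fst S.K ⊓ Setoid.ker (kZ S) ⊓ Setoid.ker (QZ S)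

theorem KZ_iff (y y' : S.Ω × S.Ω) :
    KZ S y y' ↔ (S.K y.1 y'.1 ∧ kZ S y = kZ S y') ∧ QZ S y = QZ S y' := Iff.rfl

end inst

/-- **from pair systems to arbitrary systems** -/
theorem RIH_of_SDp {m : ℕ} {β c : ℝ} (hβ : 1 ≤ β) (h : SDp m β c) : RIH m β c := by
  obtain ⟨C, hC, h⟩ := h
  refine ⟨(β + C) + (6 * β + 6 * C + 1) * (6 * m + 2) + C, by positivity, ?_⟩
  intro M G S
  have h1 := h M G (Zs S)
  obtain ⟨f1, f2, f3, f4⟩ := (VVZ_H S).main
  have hp := pZ_prob S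
  have e0 : HH (pZ S) (VVZ S) {.K, .k, .Q} - HH (pZ S) (VVZ S) {.K, .k} = HQ S := by
    unfold HQ
    congr 1
    · exact HH_coord hp (MP_id _) _ _ _ fun y y' _ _ => by
        simp [Setoid.inf_iff_and, Setoid.ker_def, Setoid.comap_rel, and_assoc]
    · exact HH_coord hp (MP_id _) _ _ _ fun y y' _ _ => by
        simp [Setoid.inf_iff_and, Setoid.ker_def, Setoid.comap_rel]
  have g0 : HH (pZ S) (VVZ S) {.K, .k, .Q} = Ent (pZ S) (KZ S) :=
    HH_coord hp (MP_id _) _ _ _ fun y y' _ _ => by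
      simp [KZ_iff, Setoid.inf_iff_and, Setoid.ker_def, and_assoc]
  have g1 : HH (pZ S) (VVZ S) {.K, .k, .Q, .l} = Ent (pZ S) (KZ S ⊓ Setoid.ker (fun z => S.l z.1)) :=
    HH_coord hp (MP_id _) _ _ _ fun y y' _ _ => by
      simp [KZ_iff, Setoid.inf_iff_and, Setoid.ker_def, and_assoc]
  have g2 : HH (pZ S) (VVZ S) {.K, .k, .Q, .T} = Ent (pZ S) (KZ S ⊓ Setoid.ker (fun z => S.T z.1)) :=
    HH_coord hp (MP_id _) _ _ _ fun y y' _ _ => by
      simp [KZ_iff, Setoid.inf_iff_and, Setoid.ker_def, and_assoc]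
  have g3 : HH (pZ S) (VVZ S) {.K, .k, .Q, .T, .P} = Ent (pZ S) (KZ S ⊓ Setoid.ker (fun z => S.T z.1)
      ⊓ Setoid.ker (fun z => G.P (S.l z.1) (S.T z.1))) :=
    HH_coord hp (MP_id _) _ _ _ fun y y' _ _ => by
      simp [KZ_iff, Setoid.inf_iff_and, Setoid.ker_def, and_assoc]
  have g4 : HH (pZ S) (VVZ S) {.K, .k, .Q, .l, .T} = Ent (pZ S) (KZ S ⊓ Setoid.ker (fun z => S.l z.1)
      ⊓ Setoid.ker (fun z => S.T z.1)) :=
    HH_coord hp (MP_id _) _ _ _ fun y y' _ _ => by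
      simp [KZ_iff, Setoid.inf_iff_and, Setoid.ker_def, and_assoc]
  have g5 : HH (pZ S) (VVZ S) {.K, .k, .Q, .l, .l', .T} = Ent (pZ S) (KZ S
      ⊓ Setoid.ker (fun z => S.l z.1) ⊓ Setoid.ker (fun z => S.l z.2)
      ⊓ Setoid.ker (fun z => S.T z.1)) :=
    HH_coord hp (MP_id _) _ _ _ fun y y' _ _ => by
      simp [KZ_iff, Setoid.inf_iff_and, Setoid.ker_def, and_assoc]
  have e1 : (Zs S).a = HH (pZ S) (VVZ S) {.K, .k, .Q, .l} - HH (pZ S) (VVZ S) {.K, .k, .Q} := by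
    rw [g0, g1]
    rfl
  have e2 : (Zs S).h = HH (pZ S) (VVZ S) {.K, .k, .Q, .T, .P}
      - HH (pZ S) (VVZ S) {.K, .k, .Q, .T} := by
    rw [g2, g3]
    rfl
  have e3 : (Zs S).κ = Real.log M - (HH (pZ S) (VVZ S) {.K, .k, .Q, .l, .T}
      - HH (pZ S) (VVZ S) {.K, .k, .Q, .l}) := by
    rw [g1, g4]
    rfl
  have e4 : (Zs S).ι = 2 * HH (pZ S) (VVZ S) {.K, .k, .Q, .l, .T}
      - HH (pZ S) (VVZ S) {.K, .k, .Q, .T, .P} - HH (pZ S) (VVZ S) {.K, .k, .Q, .l, .l', .T} := by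
    rw [g3, g4, g5]
    rfl
  have e5 : (Zs S).A = AQ S := rfl
  rw [e1, e2, e3, e4, e5] at h1
  rw [e0] at f1 f2
  have e6 : Real.log M - (S.eB - S.eL) = S.κ := rfl
  rw [e6] at f2 f3
  have e7 : S.eL - S.eK = S.a := rfl
  have e8 : S.eP - S.eT = S.h := rfl
  rw [e7] at f1
  rw [e8] at f2
  generalize HH (pZ S) (VVZ S) {.K, .k, .Q, .l} - HH (pZ S) (VVZ S) {.K, .k, .Q} = a2 at *
  generalize HH (pZ S) (VVZ S) {.K, .k, .Q, .T, .P} - HH (pZ S) (VVZ S) {.K, .k, .Q, .T} = h2 at *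
  generalize Real.log M - (HH (pZ S) (VVZ S) {.K, .k, .Q, .l, .T}
      - HH (pZ S) (VVZ S) {.K, .k, .Q, .l}) = k2 at *
  generalize 2 * HH (pZ S) (VVZ S) {.K, .k, .Q, .l, .T}
      - HH (pZ S) (VVZ S) {.K, .k, .Q, .T, .P} - HH (pZ S) (VVZ S) {.K, .k, .Q, .l, .l', .T} = i2 at *
  have hκ := S.κ_nonneg
  have hell := ell_ge M
  have hβ0 : 0 ≤ β := by linarith
  have hkz : 0 ≤ kz m M := by linarith [(kz_ge m M).1]
  have p1 : β * h2 ≤ β * (S.h - HQ S + S.κ + 6 * kz m M) := mul_le_mul_of_nonneg_left f2 hβ0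
  have p2 : C * (k2 + i2 + ell M) ≤ C * (S.κ + 6 * kz m M + ell M) :=
    mul_le_mul_of_nonneg_left (by linarith) hC
  have ekz : kz m M = (6 * m + 2) * ell M := rfl
  have p3 : S.a + (β - 1) * HQ S + c * AQ S ≤ β * S.h
      + ((β + C) * S.κ + (6 * β + 6 * C + 1) * kz m M + C * ell M) := by
    linarith
  refine p3.trans ?_
  rw [ekz]
  have hm : (0 : ℝ) ≤ m := Nat.cast_nonneg m
  have p4 : 0 ≤ ((6 * β + 6 * C + 1) * (6 * m + 2) + C) * S.κ := by positivity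
  have p5 : 0 ≤ (β + C) * ell M := by positivity
  linarith

end Pool.Agent.Helper81.Kak
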