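import Pool.Agent.Helper8.Kak.Defs

/-!
# The linear system for the pair of heights: deterministic estimate
-/

set_option autoImplicit false

namespace Pool.Agent.Helper81.Kak

open Pool.Agent.Helper8.Kak

/-- projection to `[0, M]` -/
noncomputable def clip (M a : ℝ) : ℝ := max 0 (min M a)

theorem clip_mem {M a : ℝ} (hM : 0 ≤ M) : 0 ≤ clip M a ∧ clip M a ≤ M :=
  ⟨le_max_left _ _, max_le hM (min_le_left _ _)⟩

theorem abs_sub_clip {M s a : ℝ} (h0 : 0 ≤ s) (h1 : s ≤ M) : |s - clip M a| ≤ |s - a| := by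
  unfold clip
  rcases le_total a 0 with h | h
  · have : min M a = a := min_eq_right (by linarith)
    rw [this, max_eq_left h, sub_zero, abs_of_nonneg h0, abs_of_nonneg (by linarith)]
    linarith
  · rcases le_total a M with h' | h'
    · rw [min_eq_right h', max_eq_right h]
    · rw [min_eq_left h', max_eq_right (by linarith), abs_of_nonpos (by linarith),
        abs_of_nonpos (by linarith)]
      linarith

theorem abs_sub_clip_le {M s a : ℝ} (h0 : 0 ≤ s) (h1 : s ≤ M) : |s - clip M a| ≤ M := by
  obtain ⟨h2, h3⟩ := clip_mem (M := M) (a := a) (by linarith)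
  rw [abs_le]
  constructor <;> linarith

/-- determinant of the system -/
def dt (x y z u v : ℝ) : ℝ := (u - x) * (y - z) - (v - y) * (x - z)

/-- first unknown -/
noncomputable def s1 (x y z u v : ℝ) : ℝ :=
  (x * (u - z) * (y - z) - y * (v - z) * (x - z)) / dt x y z u v

/-- second unknown -/
noncomputable def s2 (x y z u v : ℝ) : ℝ :=
  ((u - x) * (y * (v - z)) - (v - y) * (x * (u - z))) / dt x y z u v

/-- the penalty -/
noncomputable def pen (M s t x y z : ℝ) : ℝ :=
  M / max |s - t| 1 * (M / max |x - y| 1) * ((1 + M / max |x - z| 1) * (1 + M / max |y - z| 1))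

section

variable {M s t x y z u v θ1 θ2 : ℝ}

/-- the good case or a large penalty -/
theorem det_alt (hM : 1 ≤ M) (hs : |s - t| ≤ M) (hxy : |x - y| ≤ M)
    (hsx : |s - x| ≤ M) (hsy : |s - y| ≤ M) (hxt : |x - t| ≤ M) (hyt : |y - t| ≤ M)
    (θ1p : 0 ≤ θ1) (θ1l : θ1 ≤ 1) (θ2p : 0 ≤ θ2) (θ2l : θ2 ≤ 1)
    (i1 : s ≠ t → 1 ≤ |s - t|) (i2 : x ≠ y → 1 ≤ |x - y|) (i3 : x ≠ z → 1 ≤ |x - z|)
    (i4 : y ≠ z → 1 ≤ |y - z|)
    (h1 : (s - x) * (u - x) = (x - t) * (x - z - θ1))
    (h2 : (s - y) * (v - y) = (y - t) * (y - z - θ2)) :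
    M ≤ 4 * pen M s t x y z ∨ (0 < |dt x y z u v| ∧ 0 < |x - z| ∧ 0 < |y - z| ∧
      M / |dt x y z u v| * (|x - z| * |y - z|) ≤ 2 * M * (M / max |s - t| 1) *
        (M / max |x - y| 1) ∧ M / |x - z| ≤ M / max |x - z| 1 ∧
        M / |y - z| ≤ M / max |y - z| 1) := by
  have hM0 : 0 < M := by linarith
  have m1 : 0 < max |s - t| 1 := lt_of_lt_of_le one_pos (le_max_right _ _)
  have m2 : 0 < max |x - y| 1 := lt_of_lt_of_le one_pos (le_max_right _ _)
  have m3 : 0 < max |x - z| 1 := lt_of_lt_of_le one_pos (le_max_right _ _)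
  have m4 : 0 < max |y - z| 1 := lt_of_lt_of_le one_pos (le_max_right _ _)
  have p1 : 1 ≤ M / max |s - t| 1 := by rw [le_div_iff₀ m1]; simpa using ⟨hs, hM⟩
  have p2 : 1 ≤ M / max |x - y| 1 := by rw [le_div_iff₀ m2]; simpa using ⟨hxy, hM⟩
  have p3 : 0 ≤ M / max |x - z| 1 := by positivity
  have p4 : 0 ≤ M / max |y - z| 1 := by positivity
  have hpos1 : 1 ≤ (1 + M / max |x - z| 1) * (1 + M / max |y - z| 1) :=
    one_le_mul_of_one_le_of_one_le (by linarith) (by linarith)
  by_cases c1 : s = t
  · left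
    have e : M / max |s - t| 1 = M := by rw [c1, sub_self, abs_zero, max_eq_right zero_le_one, div_one]
    unfold pen
    rw [e]
    have h3 := one_le_mul_of_one_le_of_one_le p2 hpos1
    have h4 := le_mul_of_one_le_right hM0.le h3
    rw [← mul_assoc] at h4
    linarith
  by_cases c2 : x = y
  · left
    have e : M / max |x - y| 1 = M := by rw [c2, sub_self, abs_zero, max_eq_right zero_le_one, div_one]
    unfold pen
    rw [e, mul_comm (M / max |s - t| 1) M]
    have h3 := one_le_mul_of_one_le_of_one_le p1 hpos1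
    have h4 := le_mul_of_one_le_right hM0.le h3
    rw [← mul_assoc] at h4
    linarith
  have q12 : 1 ≤ M / max |s - t| 1 * (M / max |x - y| 1) := one_le_mul_of_one_le_of_one_le p1 p2
  by_cases c3 : x = z
  · left
    have e : M / max |x - z| 1 = M := by rw [c3, sub_self, abs_zero, max_eq_right zero_le_one, div_one]
    unfold pen
    rw [e]
    have h5 : M ≤ (1 + M) * (1 + M / max |y - z| 1) := by
      have h4 : 1 + M ≤ (1 + M) * (1 + M / max |y - z| 1) :=
        le_mul_of_one_le_right (by linarith) (by linarith)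
      linarith
    have h6 : (1 + M) * (1 + M / max |y - z| 1) ≤ M / max |s - t| 1 * (M / max |x - y| 1)
      * ((1 + M) * (1 + M / max |y - z| 1)) := le_mul_of_one_le_left (by positivity) q12
    linarith
  by_cases c4 : y = z
  · left
    have e : M / max |y - z| 1 = M := by rw [c4, sub_self, abs_zero, max_eq_right zero_le_one, div_one]
    unfold pen
    rw [e]
    have h5 : M ≤ (1 + M / max |x - z| 1) * (1 + M) := by
      have h4 : 1 + M ≤ (1 + M / max |x - z| 1) * (1 + M) :=
        le_mul_of_one_le_left (by linarith) (by linarith)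
      linarith
    have h6 : (1 + M / max |x - z| 1) * (1 + M) ≤ M / max |s - t| 1 * (M / max |x - y| 1)
      * ((1 + M / max |x - z| 1) * (1 + M)) := le_mul_of_one_le_left (by positivity) q12
    linarith
  have a1 := i1 c1
  have a2 := i2 c2
  have a3 := i3 c3
  have a4 := i4 c4
  have e1 : max |s - t| 1 = |s - t| := max_eq_left a1
  have e2 : max |x - y| 1 = |x - y| := max_eq_left a2
  have e3 : max |x - z| 1 = |x - z| := max_eq_left a3
  have e4 : max |y - z| 1 = |y - z| := max_eq_left a4
  set X := |x - z| with hX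
  set Y := |y - z| with hY
  set a := |s - t| with ha
  set b := |x - y| with hb
  have X0 : 0 < X := by linarith
  have Y0 : 0 < Y := by linarith
  have a0 : 0 < a := by linarith
  have b0 : 0 < b := by linarith
  -- the identity for the determinant
  have key : dt x y z u v * ((s - x) * (s - y)) = (x - z) * (y - z) * ((s - t) * (x - y))
      - θ1 * ((x - t) * (s - y)) * (y - z) + θ2 * ((y - t) * (s - x)) * (x - z) := by
    unfold dt
    have : ((u - x) * (y - z) - (v - y) * (x - z)) * ((s - x) * (s - y))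
        = ((s - x) * (u - x)) * ((y - z) * (s - y)) - ((s - y) * (v - y)) * ((x - z) * (s - x)) := by
      ring
    rw [this, h1, h2]
    ring
  have b1 : |θ1 * ((x - t) * (s - y)) * (y - z)| ≤ M ^ 2 * Y := by
    rw [abs_mul, abs_mul, abs_mul, abs_of_nonneg θ1p]
    have : |x - t| * |s - y| ≤ M * M := mul_le_mul hxt hsy (abs_nonneg _) hM0.le
    have h0 : 0 ≤ |x - t| * |s - y| := by positivity
    have h3 : θ1 * (|x - t| * |s - y|) ≤ M ^ 2 := by
      calc θ1 * (|x - t| * |s - y|) ≤ 1 * (M * M) := mul_le_mul θ1l this h0 zero_le_one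
        _ = M ^ 2 := by ring
    exact mul_le_mul_of_nonneg_right h3 Y0.le
  have b2 : |θ2 * ((y - t) * (s - x)) * (x - z)| ≤ M ^ 2 * X := by
    rw [abs_mul, abs_mul, abs_mul, abs_of_nonneg θ2p]
    have : |y - t| * |s - x| ≤ M * M := mul_le_mul hyt hsx (abs_nonneg _) hM0.le
    have h0 : 0 ≤ |y - t| * |s - x| := by positivity
    have h3 : θ2 * (|y - t| * |s - x|) ≤ M ^ 2 := by
      calc θ2 * (|y - t| * |s - x|) ≤ 1 * (M * M) := mul_le_mul θ2l this h0 zero_le_one
        _ = M ^ 2 := by ring
    exact mul_le_mul_of_nonneg_right h3 X0.le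
  have b3 : |dt x y z u v| * (|s - x| * |s - y|) ≥ X * Y * (a * b) - M ^ 2 * (X + Y) := by
    rw [← abs_mul, ← abs_mul, key]
    have g1 : |(x - z) * (y - z) * ((s - t) * (x - y))| = X * Y * (a * b) := by
      rw [abs_mul, abs_mul, abs_mul]
    have g2 : |(x - z) * (y - z) * ((s - t) * (x - y))| ≤
        |(x - z) * (y - z) * ((s - t) * (x - y)) - θ1 * ((x - t) * (s - y)) * (y - z)
          + θ2 * ((y - t) * (s - x)) * (x - z)| + |θ1 * ((x - t) * (s - y)) * (y - z)|
          + |θ2 * ((y - t) * (s - x)) * (x - z)| := by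
      have h5 := abs_add_three ((x - z) * (y - z) * ((s - t) * (x - y))
        - θ1 * ((x - t) * (s - y)) * (y - z) + θ2 * ((y - t) * (s - x)) * (x - z))
        (θ1 * ((x - t) * (s - y)) * (y - z)) (-(θ2 * ((y - t) * (s - x)) * (x - z)))
      rw [abs_neg] at h5
      refine le_trans (le_of_eq ?_) h5
      congr 1
      ring
    linarith
  by_cases c5 : 2 * M ^ 2 * (X + Y) ≤ X * Y * (a * b)
  · right
    have c6 : X * Y * (a * b) / 2 ≤ |dt x y z u v| * (|s - x| * |s - y|) := by linarith
    have c7 : |s - x| * |s - y| ≤ M * M := mul_le_mul hsx hsy (abs_nonneg _) hM0.le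
    have c8 : X * Y * (a * b) / 2 ≤ |dt x y z u v| * (M * M) :=
      c6.trans (mul_le_mul_of_nonneg_left c7 (abs_nonneg _))
    have c9 : 0 < |dt x y z u v| := by
      by_contra hc
      have : |dt x y z u v| = 0 := le_antisymm (not_lt.1 hc) (abs_nonneg _)
      rw [this, zero_mul] at c8
      have : 0 < X * Y * (a * b) := by positivity
      linarith
    refine ⟨c9, X0, Y0, ?_, ?_, ?_⟩
    · rw [e1, e2]
      have h7 : 2 * M * (M / a) * (M / b) = 2 * M ^ 3 / (a * b) := by
        field_simp
      rw [h7, div_mul_eq_mul_div, div_le_div_iff₀ c9 (by positivity)]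
      have h8 := mul_le_mul_of_nonneg_left c8 (show (0 : ℝ) ≤ 2 * M by linarith)
      have h9 : 2 * M * (X * Y * (a * b) / 2) = M * (X * Y) * (a * b) := by ring
      have h10 : 2 * M * (|dt x y z u v| * (M * M)) = 2 * M ^ 3 * |dt x y z u v| := by ring
      rw [h9, h10] at h8
      exact h8
    · rw [e3]
    · rw [e4]
  · left
    push Not at c5
    unfold pen
    rw [e1, e2, e3, e4]
    have h8 : X * Y * (a * b) ≤ 2 * M ^ 2 * (X + Y) := c5.le
    have h9 : 1 ≤ 2 * M ^ 2 * (X + Y) / (X * Y * (a * b)) := by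
      rw [le_div_iff₀ (by positivity)]
      linarith
    have h10 : 2 * M ^ 2 * (X + Y) / (X * Y * (a * b)) * M
        = 2 * (M / a * (M / b) * (M / X + M / Y)) := by
      field_simp
      ring
    have h11 : M ≤ 2 * (M / a * (M / b) * (M / X + M / Y)) := by
      rw [← h10]
      exact le_mul_of_one_le_left hM0.le h9
    have h12 : M / X + M / Y ≤ (1 + M / X) * (1 + M / Y) := by
      have : 0 ≤ M / X * (M / Y) := by positivity
      have e : (1 + M / X) * (1 + M / Y) = 1 + (M / X + M / Y) + M / X * (M / Y) := by ring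
      linarith
    have h13 : M / a * (M / b) * (M / X + M / Y) ≤ M / a * (M / b) * ((1 + M / X) * (1 + M / Y)) :=
      mul_le_mul_of_nonneg_left h12 (by positivity)
    have h14 : 0 ≤ M / a * (M / b) * ((1 + M / X) * (1 + M / Y)) := by positivity
    linarith

/-- the solution of the linear system is close to the pair of heights -/
theorem det_main (hM : 1 ≤ M) (hs0 : 0 ≤ s) (hs1 : s ≤ M) (ht0 : 0 ≤ t) (ht1 : t ≤ M)
    (hx0 : 0 ≤ x) (hx1 : x ≤ M) (hy0 : 0 ≤ y) (hy1 : y ≤ M)
    (θ1p : 0 ≤ θ1) (θ1l : θ1 ≤ 1) (θ2p : 0 ≤ θ2) (θ2l : θ2 ≤ 1)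
    (i1 : s ≠ t → 1 ≤ |s - t|) (i2 : x ≠ y → 1 ≤ |x - y|) (i3 : x ≠ z → 1 ≤ |x - z|)
    (i4 : y ≠ z → 1 ≤ |y - z|)
    (h1 : (s - x) * (u - x) = (x - t) * (x - z - θ1))
    (h2 : (s - y) * (v - y) = (y - t) * (y - z - θ2)) :
    |s - clip M (s1 x y z u v)| ≤ 4 * pen M s t x y z ∧
    |t - clip M (s2 x y z u v)| ≤ 4 * pen M s t x y z * (1 + (|u - x| + |v - y|) / M) := by
  have hM0 : 0 < M := by linarith
  have ab : ∀ a b : ℝ, 0 ≤ a → a ≤ M → 0 ≤ b → b ≤ M → |a - b| ≤ M := by
    intro a b h3 h4 h5 h6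
    rw [abs_le]
    constructor <;> linarith
  have hpen : 0 ≤ pen M s t x y z := by
    unfold pen
    positivity
  have hU : 1 ≤ 1 + (|u - x| + |v - y|) / M := by
    have : 0 ≤ (|u - x| + |v - y|) / M := by positivity
    linarith
  rcases det_alt hM (ab s t hs0 hs1 ht0 ht1) (ab x y hx0 hx1 hy0 hy1) (ab s x hs0 hs1 hx0 hx1)
    (ab s y hs0 hs1 hy0 hy1) (ab x t hx0 hx1 ht0 ht1) (ab y t hy0 hy1 ht0 ht1)
    θ1p θ1l θ2p θ2l i1 i2 i3 i4 h1 h2 with h | ⟨hd, hX, hY, h3, h4, h5⟩
  · constructor
    · exact (abs_sub_clip_le hs0 hs1).trans h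
    · refine (abs_sub_clip_le ht0 ht1).trans (h.trans ?_)
      exact le_mul_of_one_le_right (by positivity) hU
  · have hdt : dt x y z u v ≠ 0 := abs_pos.1 hd
    set r1 := s * (u - x) + t * (x - z) - x * (u - z) with hr1
    set r2 := s * (v - y) + t * (y - z) - y * (v - z) with hr2
    have e1 : r1 = θ1 * (t - x) := by
      have : r1 = ((s - x) * (u - x)) - (x - t) * (x - z) := by rw [hr1]; ring
      rw [this, h1]; ring
    have e2 : r2 = θ2 * (t - y) := by
      have : r2 = ((s - y) * (v - y)) - (y - t) * (y - z) := by rw [hr2]; ring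
      rw [this, h2]; ring
    have b1 : |r1| ≤ M := by
      rw [e1, abs_mul, abs_of_nonneg θ1p]
      have := mul_le_mul θ1l (ab t x ht0 ht1 hx0 hx1) (abs_nonneg _) zero_le_one
      rwa [one_mul] at this
    have b2 : |r2| ≤ M := by
      rw [e2, abs_mul, abs_of_nonneg θ2p]
      have := mul_le_mul θ2l (ab t y ht0 ht1 hy0 hy1) (abs_nonneg _) zero_le_one
      rwa [one_mul] at this
    have f1 : s - s1 x y z u v = (r1 * (y - z) - r2 * (x - z)) / dt x y z u v := by
      unfold s1
      rw [eq_div_iff hdt, sub_mul, div_mul_cancel₀ _ hdt, hr1, hr2]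
      unfold dt
      ring
    have f2 : t - s2 x y z u v = ((u - x) * r2 - (v - y) * r1) / dt x y z u v := by
      unfold s2
      rw [eq_div_iff hdt, sub_mul, div_mul_cancel₀ _ hdt, hr1, hr2]
      unfold dt
      ring
    have p1 : 0 ≤ M / max |s - t| 1 := by positivity
    have p2 : 0 ≤ M / max |x - y| 1 := by positivity
    have p3 : 0 ≤ M / max |x - z| 1 := by positivity
    have p4 : 0 ≤ M / max |y - z| 1 := by positivity
    constructor
    · refine (abs_sub_clip hs0 hs1).trans ?_
      rw [f1, abs_div]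
      have g1 : |r1 * (y - z) - r2 * (x - z)| ≤ M * (|x - z| + |y - z|) := by
        refine (abs_sub _ _).trans ?_
        rw [abs_mul, abs_mul]
        have k1 := mul_le_mul_of_nonneg_right b1 (abs_nonneg (y - z))
        have k2 := mul_le_mul_of_nonneg_right b2 (abs_nonneg (x - z))
        linarith
      have g2 : |r1 * (y - z) - r2 * (x - z)| / |dt x y z u v|
          ≤ M * (|x - z| + |y - z|) / |dt x y z u v| := div_le_div_of_nonneg_right g1 hd.le
      have g3 : M * (|x - z| + |y - z|) / |dt x y z u v|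
          = M / |dt x y z u v| * (|x - z| * |y - z|) * (1 / |y - z| + 1 / |x - z|) := by
        field_simp
      have g4 : M / |dt x y z u v| * (|x - z| * |y - z|) * (1 / |y - z| + 1 / |x - z|)
          ≤ 2 * M * (M / max |s - t| 1) * (M / max |x - y| 1) * (1 / |y - z| + 1 / |x - z|) :=
        mul_le_mul_of_nonneg_right h3 (by positivity)
      have g5 : 2 * M * (M / max |s - t| 1) * (M / max |x - y| 1) * (1 / |y - z| + 1 / |x - z|)
          = 2 * ((M / max |s - t| 1) * (M / max |x - y| 1)) * (M / |y - z| + M / |x - z|) := by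
        ring
      have g6 : M / |y - z| + M / |x - z| ≤ (1 + M / max |x - z| 1) * (1 + M / max |y - z| 1) := by
        have : 0 ≤ M / max |x - z| 1 * (M / max |y - z| 1) := mul_nonneg p3 p4
        have e : (1 + M / max |x - z| 1) * (1 + M / max |y - z| 1)
          = 1 + (M / max |x - z| 1 + M / max |y - z| 1)
            + M / max |x - z| 1 * (M / max |y - z| 1) := by ring
        linarith
      have g7 : 2 * ((M / max |s - t| 1) * (M / max |x - y| 1)) * (M / |y - z| + M / |x - z|)
          ≤ 2 * ((M / max |s - t| 1) * (M / max |x - y| 1))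
            * ((1 + M / max |x - z| 1) * (1 + M / max |y - z| 1)) :=
        mul_le_mul_of_nonneg_left g6 (by positivity)
      have g8 : 2 * ((M / max |s - t| 1) * (M / max |x - y| 1))
            * ((1 + M / max |x - z| 1) * (1 + M / max |y - z| 1)) = 2 * pen M s t x y z := by
        unfold pen
        ring
      linarith
    · refine (abs_sub_clip ht0 ht1).trans ?_
      rw [f2, abs_div]
      have g1 : |(u - x) * r2 - (v - y) * r1| ≤ M * (|u - x| + |v - y|) := by
        refine (abs_sub _ _).trans ?_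
        rw [abs_mul, abs_mul]
        have k1 := mul_le_mul_of_nonneg_left b2 (abs_nonneg (u - x))
        have k2 := mul_le_mul_of_nonneg_left b1 (abs_nonneg (v - y))
        linarith
      have g2 : |(u - x) * r2 - (v - y) * r1| / |dt x y z u v|
          ≤ M * (|u - x| + |v - y|) / |dt x y z u v| := div_le_div_of_nonneg_right g1 hd.le
      have g3 : M * (|u - x| + |v - y|) / |dt x y z u v|
          = M / |dt x y z u v| * (|x - z| * |y - z|) *
            ((|u - x| + |v - y|) / (|x - z| * |y - z|)) := by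
        field_simp
      have g4 : M / |dt x y z u v| * (|x - z| * |y - z|) * ((|u - x| + |v - y|) / (|x - z| * |y - z|))
          ≤ 2 * M * (M / max |s - t| 1) * (M / max |x - y| 1)
            * ((|u - x| + |v - y|) / (|x - z| * |y - z|)) :=
        mul_le_mul_of_nonneg_right h3 (by positivity)
      have g5 : 2 * M * (M / max |s - t| 1) * (M / max |x - y| 1)
            * ((|u - x| + |v - y|) / (|x - z| * |y - z|))
          = 2 * ((M / max |s - t| 1) * (M / max |x - y| 1)) * ((M / |x - z|) * (M / |y - z|))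
            * ((|u - x| + |v - y|) / M) := by
        field_simp
      have g6 : (M / |x - z|) * (M / |y - z|) ≤ (1 + M / max |x - z| 1) * (1 + M / max |y - z| 1) := by
        have k1 : 0 ≤ M / |x - z| := by positivity
        have k2 : 0 ≤ M / |y - z| := by positivity
        exact mul_le_mul (by linarith) (by linarith) k2 (by linarith)
      have g7 : 2 * ((M / max |s - t| 1) * (M / max |x - y| 1)) * ((M / |x - z|) * (M / |y - z|))
            * ((|u - x| + |v - y|) / M)
          ≤ 2 * ((M / max |s - t| 1) * (M / max |x - y| 1))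
            * ((1 + M / max |x - z| 1) * (1 + M / max |y - z| 1)) * ((|u - x| + |v - y|) / M) := by
        refine mul_le_mul_of_nonneg_right ?_ (by positivity)
        exact mul_le_mul_of_nonneg_left g6 (by positivity)
      have g8 : 2 * ((M / max |s - t| 1) * (M / max |x - y| 1))
            * ((1 + M / max |x - z| 1) * (1 + M / max |y - z| 1)) = 2 * pen M s t x y z := by
        unfold pen
        ring
      rw [g8] at g7
      have g9 : 0 ≤ (|u - x| + |v - y|) / M := by positivity
      have g10 : 2 * pen M s t x y z * ((|u - x| + |v - y|) / M)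
          ≤ 4 * pen M s t x y z * (1 + (|u - x| + |v - y|) / M) :=
        mul_le_mul (by linarith) (by linarith) g9 (by positivity)
      linarith

end

end Pool.Agent.Helper81.Kak
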