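import Pool.Agent.Helper8.Kak.L1Cost
import Pool.Agent.Helper81.Kak.CEl
import Pool.Agent.Helper81.Kak.Det

/-!
# Two copies of a height determine the pair of heights

For heights `b, T1, b'` and an integer `B` put `tw = T1 + B` and `tz = b + mv B b' T1 b`. If `tz` is
known, the entropy of the pair `(b, T1)` is at most twice the entropy of `tw` given `b'`, up to
bounded penalties.
-/

set_option autoImplicit false

namespace Pool.Agent.Helper81.Kak

open Pool.Agent.Helper8.Kak Pool.Agent.Helper89.KakGeo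

section scalars

variable {M : ℕ}

theorem ht_sub (s t : Fin M) : ht s - ht t = (((s : ℕ) : ℝ) - ((t : ℕ) : ℝ)) / M := by
  unfold ht
  rw [sub_div]

theorem val_mem (s : Fin M) : 0 ≤ (((s : ℕ) : ℝ)) ∧ ((s : ℕ) : ℝ) ≤ M :=
  ⟨Nat.cast_nonneg _, by exact_mod_cast s.2.le⟩

theorem inv_dst (s t : Fin M) :
    1 / dst s t = (M : ℝ) / max |((s : ℕ) : ℝ) - ((t : ℕ) : ℝ)| 1 := by
  have h := dst_eq_int s t
  push_cast at h
  rw [h, one_div_div]

theorem ld_eq (s t : Fin M) :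
    ld s t = Real.log ((M : ℝ) / max |((s : ℕ) : ℝ) - ((t : ℕ) : ℝ)| 1) := by
  unfold ld
  rw [inv_dst]

/-- the exact relation, with a rounding parameter -/
theorem mv_rel (B : ℤ) (x t s : Fin M) (h : x ≠ t) : ∃ θ : ℝ, 0 ≤ θ ∧ θ ≤ 1 ∧
    (((s : ℕ) : ℝ) - (x : ℕ)) * (((t : ℕ) : ℝ) + B - (x : ℕ))
      = (((x : ℕ) : ℝ) - (t : ℕ)) * (((x : ℕ) : ℝ) - (((s : ℕ) : ℝ) + (mv B x t s : ℤ)) - θ) := by
  have hM := M_pos x
  have hne : ((x : ℕ) : ℝ) - ((t : ℕ) : ℝ) ≠ 0 := by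
    intro h1
    apply h
    ext
    have : ((x : ℕ) : ℝ) = ((t : ℕ) : ℝ) := by linarith
    exact_mod_cast this
  have e : (ht x - ht s) / (ht x - ht t)
      = (((x : ℕ) : ℝ) - ((s : ℕ) : ℝ)) / (((x : ℕ) : ℝ) - ((t : ℕ) : ℝ)) := by
    rw [ht_sub, ht_sub, div_div_div_cancel_right₀ hM.ne']
  refine ⟨(B : ℝ) * ((((x : ℕ) : ℝ) - ((s : ℕ) : ℝ)) / (((x : ℕ) : ℝ) - ((t : ℕ) : ℝ)))
    - (mv B x t s : ℤ), ?_, ?_, ?_⟩
  · unfold mv
    rw [e]
    linarith [Int.floor_le ((B : ℝ) * ((((x : ℕ) : ℝ) - ((s : ℕ) : ℝ))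
      / (((x : ℕ) : ℝ) - ((t : ℕ) : ℝ))))]
  · unfold mv
    rw [e]
    linarith [Int.lt_floor_add_one ((B : ℝ) * ((((x : ℕ) : ℝ) - ((s : ℕ) : ℝ))
      / (((x : ℕ) : ℝ) - ((t : ℕ) : ℝ))))]
  · field_simp
    ring

/-- the parameter of the second form is not small -/
theorem dn_tz (B : ℤ) (x t s : Fin M) :
    dn M (((x : ℕ) : ℤ) - (((s : ℕ) : ℤ) + mv B x t s)) ≤
      Real.log 2 + ld x s + dn M (((x : ℕ) : ℤ) - (((t : ℕ) : ℤ) + B)) := by
  have hM := M_pos x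
  have hM1 := one_le_M x
  have hd := dn_nonneg (M := M) (((x : ℕ) : ℤ) - (((t : ℕ) : ℤ) + B))
  have p1 : 1 ≤ (M : ℝ) / max |((x : ℕ) : ℝ) - ((s : ℕ) : ℝ)| 1 := by
    rw [← inv_dst]
    exact one_le_inv_dst x s
  by_cases h : x = t
  · have e : mv B x t s = 0 := by
      unfold mv
      rw [h, sub_self, div_zero, mul_zero, Int.floor_zero]
    have e2 : dn M (((x : ℕ) : ℤ) - (((s : ℕ) : ℤ) + mv B x t s)) ≤ Real.log 2 + ld x s := by
      rw [e, add_zero, ld_eq, ← Real.log_mul (by norm_num) (by positivity)]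
      unfold dn
      refine Real.log_le_log (by positivity) ?_
      push_cast
      linarith
    linarith
  · obtain ⟨θ, h0, h1, h2⟩ := mv_rel B x t s h
    set X : ℝ := ((x : ℕ) : ℝ) - (((s : ℕ) : ℝ) + (mv B x t s : ℤ)) with hX
    set α : ℝ := ((t : ℕ) : ℝ) + B - (x : ℕ) with hα
    have m3 : 0 < max |X| 1 := lt_of_lt_of_le one_pos (le_max_right _ _)
    have m4 : 0 < max |α| 1 := lt_of_lt_of_le one_pos (le_max_right _ _)
    have m5 : 0 < max |((x : ℕ) : ℝ) - ((s : ℕ) : ℝ)| 1 := lt_of_lt_of_le one_pos (le_max_right _ _)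
    have hxt : |((x : ℕ) : ℝ) - ((t : ℕ) : ℝ)| ≤ M := by
      obtain ⟨a1, a2⟩ := val_mem x
      obtain ⟨a3, a4⟩ := val_mem t
      rw [abs_le]
      constructor <;> linarith
    have k1 : |((x : ℕ) : ℝ) - ((s : ℕ) : ℝ)| * |α| ≤ 2 * M * max |X| 1 := by
      have e1 : |((x : ℕ) : ℝ) - ((s : ℕ) : ℝ)| * |α| = |((x : ℕ) : ℝ) - ((t : ℕ) : ℝ)| * |X - θ| := by
        rw [← abs_mul, ← abs_mul, ← h2, ← abs_neg]
        congr 1
        ring
      have e2 : |X - θ| ≤ 2 * max |X| 1 := by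
        have := abs_sub X θ
        have g1 := le_max_left |X| 1
        have g2 := le_max_right |X| 1
        rw [abs_of_nonneg h0] at this
        linarith
      rw [e1]
      calc _ ≤ (M : ℝ) * (2 * max |X| 1) := mul_le_mul hxt e2 (abs_nonneg _) hM.le
        _ = 2 * M * max |X| 1 := by ring
    have k2 : 1 + (M : ℝ) / max |X| 1 ≤ 2 * ((M : ℝ) / max |((x : ℕ) : ℝ) - ((s : ℕ) : ℝ)| 1)
        * (1 + M / max |α| 1) := by
      have g0 : 0 ≤ (M : ℝ) / max |α| 1 := by positivity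
      have g3 : 2 * ((M : ℝ) / max |((x : ℕ) : ℝ) - ((s : ℕ) : ℝ)| 1) * (1 + M / max |α| 1)
        = 2 * ((M : ℝ) / max |((x : ℕ) : ℝ) - ((s : ℕ) : ℝ)| 1)
          + 2 * ((M : ℝ) / max |((x : ℕ) : ℝ) - ((s : ℕ) : ℝ)| 1) * (M / max |α| 1) := by ring
      have g4 : (M : ℝ) / max |X| 1 ≤ M := div_le_self hM.le (le_max_right _ _)
      by_cases c1 : x = s
      · have e : (M : ℝ) / max |((x : ℕ) : ℝ) - ((s : ℕ) : ℝ)| 1 = M := by
          rw [c1, sub_self, abs_zero, max_eq_right zero_le_one, div_one]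
        rw [e] at g3 ⊢
        rw [g3]
        have : 0 ≤ 2 * (M : ℝ) * (M / max |α| 1) := by positivity
        linarith
      by_cases c2 : |α| ≤ 1
      · have e : (M : ℝ) / max |α| 1 = M := by
          rw [max_eq_right c2, div_one]
        rw [e] at g3 ⊢
        rw [g3]
        have : (M : ℝ) ≤ (M : ℝ) / max |((x : ℕ) : ℝ) - ((s : ℕ) : ℝ)| 1 * M :=
          le_mul_of_one_le_left hM.le p1
        linarith
      · have a2 : max |α| 1 = |α| := max_eq_left (not_le.1 c2).le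
        have a1 : max |((x : ℕ) : ℝ) - ((s : ℕ) : ℝ)| 1 = |((x : ℕ) : ℝ) - ((s : ℕ) : ℝ)| := by
          refine max_eq_left ?_
          have h5 : ((x : ℕ) : ℤ) - ((s : ℕ) : ℤ) ≠ 0 := by
            intro h6
            apply c1
            ext
            omega
          have h6 := Int.one_le_abs h5
          have h7 : ((1 : ℤ) : ℝ) ≤ ((|((x : ℕ) : ℤ) - ((s : ℕ) : ℤ)| : ℤ) : ℝ) := by exact_mod_cast h6
          push_cast at h7
          exact h7
        rw [g3, a1, a2]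
        rw [a1] at p1 m5
        rw [a2] at m4
        have g5 : (M : ℝ) / max |X| 1 ≤ 2 * ((M : ℝ) / |((x : ℕ) : ℝ) - ((s : ℕ) : ℝ)|) * (M / |α|) := by
          have e5 : 2 * ((M : ℝ) / |((x : ℕ) : ℝ) - ((s : ℕ) : ℝ)|) * (M / |α|)
            = (2 * M * M) / (|((x : ℕ) : ℝ) - ((s : ℕ) : ℝ)| * |α|) := by
            field_simp
          rw [e5, div_le_div_iff₀ m3 (by positivity)]
          calc (M : ℝ) * (|((x : ℕ) : ℝ) - ((s : ℕ) : ℝ)| * |α|) ≤ M * (2 * M * max |X| 1) :=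
                mul_le_mul_of_nonneg_left k1 hM.le
            _ = 2 * M * M * max |X| 1 := by ring
        linarith
    rw [ld_eq, ← Real.log_mul (by norm_num) (by positivity)]
    have e6 : dn M (((x : ℕ) : ℤ) - (((s : ℕ) : ℤ) + mv B x t s))
        = Real.log (1 + (M : ℝ) / max |X| 1) := by
      unfold dn
      rw [hX]
      push_cast
      rfl
    have e7 : dn M (((x : ℕ) : ℤ) - (((t : ℕ) : ℤ) + B)) = Real.log (1 + (M : ℝ) / max |α| 1) := by
      unfold dn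
      rw [hα, ← abs_neg (((t : ℕ) : ℝ) + B - (x : ℕ))]
      push_cast
      ring_nf
    rw [e6, e7, ← Real.log_mul (by positivity) (by positivity)]
    exact Real.log_le_log (by positivity) k2

/-- the parameter of the first form is not large -/
theorem up_tw (B : ℤ) (x t : Fin M) :
    up M ((((t : ℕ) : ℤ) + B) - ((x : ℕ) : ℤ)) ≤ Real.log 2 + up M B := by
  have hM := M_pos x
  unfold up
  rw [← Real.log_mul (by norm_num) (by positivity)]
  refine Real.log_le_log (by positivity) ?_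
  push_cast
  obtain ⟨a1, a2⟩ := val_mem x
  obtain ⟨a3, a4⟩ := val_mem t
  have h1 : |((t : ℕ) : ℝ) + B - ((x : ℕ) : ℝ)| ≤ M + |(B : ℝ)| := by
    have e : ((t : ℕ) : ℝ) + B - ((x : ℕ) : ℝ) = (((t : ℕ) : ℝ) - ((x : ℕ) : ℝ)) + B := by ring
    rw [e]
    refine (abs_add_le _ _).trans ?_
    have : |((t : ℕ) : ℝ) - ((x : ℕ) : ℝ)| ≤ M := by
      rw [abs_le]
      constructor <;> linarith
    linarith
  have h2 : |((t : ℕ) : ℝ) + B - ((x : ℕ) : ℝ)| / M ≤ 1 + |(B : ℝ)| / M := by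
    rw [div_le_iff₀ hM, add_mul, div_mul_cancel₀ _ hM.ne']
    linarith
  have h3 : 0 ≤ |(B : ℝ)| / M := by positivity
  linarith

/-- logarithm of the penalty -/
theorem log_pen (s t x y : Fin M) (z : ℤ) :
    1 ≤ pen M (s : ℕ) (t : ℕ) (x : ℕ) (y : ℕ) z ∧
    Real.log (pen M (s : ℕ) (t : ℕ) (x : ℕ) (y : ℕ) z) = ld s t + ld x y
      + dn M (((x : ℕ) : ℤ) - z) + dn M (((y : ℕ) : ℤ) - z) := by
  have hM := M_pos x
  have p1 : 1 ≤ (M : ℝ) / max |((s : ℕ) : ℝ) - ((t : ℕ) : ℝ)| 1 := by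
    rw [← inv_dst]
    exact one_le_inv_dst s t
  have p2 : 1 ≤ (M : ℝ) / max |((x : ℕ) : ℝ) - ((y : ℕ) : ℝ)| 1 := by
    rw [← inv_dst]
    exact one_le_inv_dst x y
  have p3 : 0 ≤ (M : ℝ) / max |((x : ℕ) : ℝ) - z| 1 := by positivity
  have p4 : 0 ≤ (M : ℝ) / max |((y : ℕ) : ℝ) - z| 1 := by positivity
  constructor
  · unfold pen
    exact one_le_mul_of_one_le_of_one_le (one_le_mul_of_one_le_of_one_le p1 p2)
      (one_le_mul_of_one_le_of_one_le (by linarith) (by linarith))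
  · unfold pen
    rw [Real.log_mul (by positivity) (by positivity), Real.log_mul (by positivity) (by positivity),
      Real.log_mul (by positivity) (by positivity), ld_eq, ld_eq]
    unfold dn
    push_cast
    ring

theorem int_abs_one {a b : ℤ} (h : (a : ℝ) ≠ b) : (1 : ℝ) ≤ |(a : ℝ) - b| := by
  have h5 : a - b ≠ 0 := by
    intro h6
    apply h
    have : a = b := by linarith
    rw [this]
  have h6 := Int.one_le_abs h5
  have h7 : ((1 : ℤ) : ℝ) ≤ ((|a - b| : ℤ) : ℝ) := by exact_mod_cast h6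
  push_cast at h7
  exact h7

/-- the logarithmic error of the solution of the linear system -/
theorem log_sol (B B' : ℤ) (s t x y : Fin M) (z : ℤ) (hz : ((s : ℕ) : ℤ) + mv B x t s = z)
    (hz' : ((s : ℕ) : ℤ) + mv B' y t s = z) :
    Real.log (1 + |((s : ℕ) : ℝ) - clip M (s1 (x : ℕ) (y : ℕ) z ((((t : ℕ) : ℤ) + B : ℤ) : ℝ)
        ((((t : ℕ) : ℤ) + B' : ℤ) : ℝ))|) ≤
      Real.log 5 + (ld s t + ld x y + dn M (((x : ℕ) : ℤ) - z) + dn M (((y : ℕ) : ℤ) - z)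
        + ld x t + ld y t) ∧
    Real.log (1 + |((t : ℕ) : ℝ) - clip M (s2 (x : ℕ) (y : ℕ) z ((((t : ℕ) : ℤ) + B : ℤ) : ℝ)
        ((((t : ℕ) : ℤ) + B' : ℤ) : ℝ))|) ≤
      Real.log 5 + (ld s t + ld x y + dn M (((x : ℕ) : ℤ) - z) + dn M (((y : ℕ) : ℤ) - z)
        + ld x t + ld y t) + (up M ((((t : ℕ) : ℤ) + B) - ((x : ℕ) : ℤ))
        + up M ((((t : ℕ) : ℤ) + B') - ((y : ℕ) : ℤ))) := by
  have hM := M_pos x
  have hM1 := one_le_M x
  have n1 := ld_nonneg s t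
  have n2 := ld_nonneg x y
  have n3 := dn_nonneg (M := M) (((x : ℕ) : ℤ) - z)
  have n4 := dn_nonneg (M := M) (((y : ℕ) : ℤ) - z)
  have n5 := ld_nonneg x t
  have n6 := ld_nonneg y t
  have n7 := up_nonneg (M := M) ((((t : ℕ) : ℤ) + B) - ((x : ℕ) : ℤ))
  have n8 := up_nonneg (M := M) ((((t : ℕ) : ℤ) + B') - ((y : ℕ) : ℤ))
  obtain ⟨a1, a2⟩ := val_mem s
  obtain ⟨a3, a4⟩ := val_mem t
  obtain ⟨a5, a6⟩ := val_mem x
  obtain ⟨a7, a8⟩ := val_mem y
  have triv : ∀ q : Fin M, ∀ c : ℝ, Real.log (1 + |((q : ℕ) : ℝ) - clip M c|)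
      ≤ Real.log 5 + Real.log M := by
    intro q c
    obtain ⟨b1, b2⟩ := val_mem q
    rw [← Real.log_mul (by norm_num) (by positivity)]
    refine Real.log_le_log (by positivity) ?_
    have := abs_sub_clip_le (a := c) b1 b2
    linarith
  have lself : ∀ q : Fin M, ld q q = Real.log M := by
    intro q
    unfold ld
    rw [inv_dst_self]
  by_cases c1 : x = t
  · have e : ld x t = Real.log M := by rw [c1, lself]
    constructor
    · refine (triv s _).trans ?_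
      linarith
    · refine (triv t _).trans ?_
      linarith
  by_cases c2 : y = t
  · have e : ld y t = Real.log M := by rw [c2, lself]
    constructor
    · refine (triv s _).trans ?_
      linarith
    · refine (triv t _).trans ?_
      linarith
  obtain ⟨θ1, t1, t2, h1⟩ := mv_rel B x t s c1
  obtain ⟨θ2, t3, t4, h2⟩ := mv_rel B' y t s c2
  have ez : ((s : ℕ) : ℝ) + (mv B x t s : ℤ) = z := by rw [← hz]; push_cast; rfl
  have ez' : ((s : ℕ) : ℝ) + (mv B' y t s : ℤ) = z := by rw [← hz']; push_cast; rfl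
  rw [ez] at h1
  rw [ez'] at h2
  obtain ⟨m1, m2⟩ := det_main (M := M) (s := (s : ℕ)) (t := (t : ℕ)) (x := (x : ℕ)) (y := (y : ℕ))
    (z := z) (u := ((t : ℕ) : ℝ) + B) (v := ((t : ℕ) : ℝ) + B') hM1 a1 a2 a3 a4 a5 a6 a7 a8 t1 t2 t3
    t4 (fun h => by simpa using int_abs_one (a := ((s : ℕ) : ℤ)) (b := ((t : ℕ) : ℤ)) (by simpa using h))
    (fun h => by simpa using int_abs_one (a := ((x : ℕ) : ℤ)) (b := ((y : ℕ) : ℤ)) (by simpa using h))
    (fun h => by simpa using int_abs_one (a := ((x : ℕ) : ℤ)) (b := z) (by simpa using h))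
    (fun h => by simpa using int_abs_one (a := ((y : ℕ) : ℤ)) (b := z) (by simpa using h)) h1 h2
  obtain ⟨k1, k2⟩ := log_pen s t x y z
  have e1 : ((((t : ℕ) : ℤ) + B : ℤ) : ℝ) = ((t : ℕ) : ℝ) + B := by push_cast; rfl
  have e2 : ((((t : ℕ) : ℤ) + B' : ℤ) : ℝ) = ((t : ℕ) : ℝ) + B' := by push_cast; rfl
  rw [e1, e2]
  set P := pen (M : ℝ) (s : ℕ) (t : ℕ) (x : ℕ) (y : ℕ) z with hP
  have hP0 : 0 < P := by linarith
  constructor
  · have g1 : Real.log (1 + |((s : ℕ) : ℝ) - clip M (s1 (x : ℕ) (y : ℕ) z (((t : ℕ) : ℝ) + B)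
        (((t : ℕ) : ℝ) + B'))|) ≤ Real.log (5 * P) := by
      refine Real.log_le_log (by positivity) ?_
      linarith
    rw [Real.log_mul (by norm_num) hP0.ne', k2] at g1
    linarith
  · set U : ℝ := |((t : ℕ) : ℝ) + B - (x : ℕ)| + |((t : ℕ) : ℝ) + B' - (y : ℕ)| with hU
    have hU0 : 0 ≤ U / M := by positivity
    have g1 : Real.log (1 + |((t : ℕ) : ℝ) - clip M (s2 (x : ℕ) (y : ℕ) z (((t : ℕ) : ℝ) + B)
        (((t : ℕ) : ℝ) + B'))|) ≤ Real.log (5 * P * (1 + U / M)) := by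
      refine Real.log_le_log (by positivity) ?_
      have g2 : 1 ≤ P * (1 + U / M) := one_le_mul_of_one_le_of_one_le k1 (by linarith)
      have g3 : 5 * P * (1 + U / M) = P * (1 + U / M) + 4 * P * (1 + U / M) := by ring
      linarith
    rw [Real.log_mul (by positivity) (by positivity), Real.log_mul (by norm_num) hP0.ne', k2] at g1
    have g4 : Real.log (1 + U / M) ≤ up M ((((t : ℕ) : ℤ) + B) - ((x : ℕ) : ℤ))
        + up M ((((t : ℕ) : ℤ) + B') - ((y : ℕ) : ℤ)) := by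
      unfold up
      rw [← Real.log_mul (by positivity) (by positivity)]
      refine Real.log_le_log (by positivity) ?_
      push_cast
      have g5 : 0 ≤ |((t : ℕ) : ℝ) + B - (x : ℕ)| / M := by positivity
      have g6 : 0 ≤ |((t : ℕ) : ℝ) + B' - (y : ℕ)| / M := by positivity
      have g7 : U / M = |((t : ℕ) : ℝ) + B - (x : ℕ)| / M + |((t : ℕ) : ℝ) + B' - (y : ℕ)| / M := by
        rw [hU, add_div]
      have g8 := mul_nonneg g5 g6
      have g9 : (1 + |((t : ℕ) : ℝ) + B - (x : ℕ)| / M) * (1 + |((t : ℕ) : ℝ) + B' - (y : ℕ)| / M)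
        = 1 + (|((t : ℕ) : ℝ) + B - (x : ℕ)| / M + |((t : ℕ) : ℝ) + B' - (y : ℕ)| / M)
          + |((t : ℕ) : ℝ) + B - (x : ℕ)| / M * (|((t : ℕ) : ℝ) + B' - (y : ℕ)| / M) := by ring
      linarith
    linarith

theorem ld_comm (s t : Fin M) : ld s t = ld t s := by
  unfold ld dst
  rw [abs_sub_comm]

/-- projection of an integer to the grid -/
def clf (hM : 0 < M) (g : ℤ) : Fin M := ⟨(max 0 (min ((M : ℤ) - 1) g)).toNat, by omega⟩

/-- distance to an integer -/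
theorem dn_clf (hM : 0 < M) (t : Fin M) (g : ℤ) :
    dn M (((t : ℕ) : ℤ) - g) ≤ Real.log 2 + ld t (clf hM g) := by
  have hM0 := M_pos t
  have p1 : 1 ≤ (M : ℝ) / max |((t : ℕ) : ℝ) - ((clf hM g : ℕ) : ℝ)| 1 := by
    rw [← inv_dst]
    exact one_le_inv_dst _ _
  rw [ld_eq, ← Real.log_mul (by norm_num) (by positivity)]
  unfold dn
  refine Real.log_le_log (by positivity) ?_
  have h1 : |((t : ℕ) : ℝ) - ((clf hM g : ℕ) : ℝ)| ≤ |(((((t : ℕ) : ℤ) - g : ℤ)) : ℝ)| := by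
    have h2 : |((t : ℕ) : ℤ) - (((clf hM g : ℕ)) : ℤ)| ≤ |((t : ℕ) : ℤ) - g| := by
      have h3 := t.2
      unfold clf
      simp only
      rcases abs_cases (((t : ℕ) : ℤ) - g) with ⟨e, _⟩ | ⟨e, _⟩ <;>
        rcases abs_cases (((t : ℕ) : ℤ) - (((max 0 (min ((M : ℤ) - 1) g)).toNat : ℕ) : ℤ)) with
          ⟨e', _⟩ | ⟨e', _⟩ <;> omega
    have h3 : ((|((t : ℕ) : ℤ) - (((clf hM g : ℕ)) : ℤ)| : ℤ) : ℝ) ≤ ((|((t : ℕ) : ℤ) - g| : ℤ) : ℝ) := by
      exact_mod_cast h2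
    rw [Int.cast_abs, Int.cast_abs] at h3
    push_cast at h3 ⊢
    exact h3
  have h2 : (M : ℝ) / max |(((((t : ℕ) : ℤ) - g : ℤ)) : ℝ)| 1
      ≤ (M : ℝ) / max |((t : ℕ) : ℝ) - ((clf hM g : ℕ) : ℝ)| 1 := by
    refine div_le_div_of_nonneg_left hM0.le (lt_of_lt_of_le one_pos (le_max_right _ _)) ?_
    exact max_le_max h1 le_rfl
  linarith

end scalars

section ent

variable {Ω : Type} [Fintype Ω] {p : Ω → ℝ} {M : ℕ}

/-- a height with large conditional entropy is far from a known height -/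
theorem close_ld (hp : IsProb p) (r : Setoid Ω) (T' T : Ω → Fin M)
    (hT : ∀ ω ω', 0 < p ω → 0 < p ω' → r ω ω' → T ω = T ω') :
    Ex p (fun ω => ld (T' ω) (T ω)) ≤ 2 * (Real.log M - CE p (Setoid.ker T') r) + 2 * Real.log 5 := by
  have h := close hp r T T' hT
  unfold Ex ld CE
  linarith

/-- a height with large conditional entropy is far from a known integer -/
theorem closeZ (hp : IsProb p) (r : Setoid Ω) (T' : Ω → Fin M) (g : Ω → ℤ)
    (hT : ∀ ω ω', 0 < p ω → 0 < p ω' → r ω ω' → g ω = g ω') :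
    Ex p (fun ω => dn M (((T' ω : ℕ) : ℤ) - g ω)) ≤ 2 * (Real.log M - CE p (Setoid.ker T') r)
      + 2 * Real.log 5 + Real.log 2 := by
  have hΩ : Nonempty Ω := by
    by_contra h
    rw [not_nonempty_iff] at h
    have := hp.2
    simp at this
  obtain ⟨ω0⟩ := hΩ
  have hM : 0 < M := lt_of_le_of_lt (Nat.zero_le _) (T' ω0).2
  have h1 := close_ld hp r T' (fun ω => clf hM (g ω)) (fun ω ω' h h' hr => by
    rw [hT ω ω' h h' hr])
  have h2 : Ex p (fun ω => dn M (((T' ω : ℕ) : ℤ) - g ω))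
      ≤ Ex p (fun ω => Real.log 2 + ld (T' ω) (clf hM (g ω))) :=
    Ex_mono' hp fun ω _ => dn_clf hM (T' ω) (g ω)
  rw [Ex_add, Ex_const hp] at h2
  linarith

omit [Fintype Ω] in
theorem ker_prod {A B : Type} (f : Ω → A) (g : Ω → B) :
    Setoid.ker (fun ω => (f ω, g ω)) = Setoid.ker f ⊓ Setoid.ker g := by
  ext a b
  rw [Setoid.ker_def, Setoid.inf_def]
  exact Prod.mk.injEq _ _ _ _ ▸ Iff.rfl

/-- **two copies of `b'`** -/
theorem Z3 (hp : IsProb p) (r : Setoid Ω) (b T1 b' : Ω → Fin M) (B : Ω → ℤ)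
    (hz : ∀ ω ω', 0 < p ω → 0 < p ω' → r ω ω' →
      ((b ω : ℕ) : ℤ) + mv (B ω) (b' ω) (T1 ω) (b ω)
        = ((b ω' : ℕ) : ℤ) + mv (B ω') (b' ω') (T1 ω') (b ω')) :
    CE p (Setoid.ker b ⊓ Setoid.ker T1) r ≤
      2 * CE p (Setoid.ker (fun ω => ((T1 ω : ℕ) : ℤ) + B ω)) (Setoid.ker b' ⊓ r)
      + 42 * (Real.log M - CE p (Setoid.ker b') ((Setoid.ker b ⊓ Setoid.ker T1) ⊓ r))
      + 4 * Ex p (fun ω => ld (b ω) (T1 ω))
      + 8 * Ex p (fun ω => dn M (((b' ω : ℕ) : ℤ) - (((T1 ω : ℕ) : ℤ) + B ω)))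
      + 4 * Ex p (fun ω => up M (B ω)) + 110 := by
  classical
  set U : Ω → Fin M × Fin M := fun ω => (b ω, T1 ω) with hU
  set tw : Ω → ℤ := fun ω => ((T1 ω : ℕ) : ℤ) + B ω with htw
  set tz : Ω → ℤ := fun ω => ((b ω : ℕ) : ℤ) + mv (B ω) (b' ω) (T1 ω) (b ω) with htz
  have hq := cp_prob (p := p) r U hp
  have h := two_copies (p := p) r U hp b' tw
  have f1 := cp_fst (p := p) r U hp
  have f2 := cp_snd (p := p) r U hp
  rw [ker_prod] at h
  set κ := Real.log M - CE p (Setoid.ker b') ((Setoid.ker b ⊓ Setoid.ker T1) ⊓ r) with hκ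
  -- heights
  have c1 : Ex p (fun ω => ld (b' ω) (b ω)) ≤ 2 * κ + 2 * Real.log 5 :=
    close_ld hp _ b' b fun ω ω' _ _ g => g.1.1
  have c2 : Ex p (fun ω => ld (b' ω) (T1 ω)) ≤ 2 * κ + 2 * Real.log 5 :=
    close_ld hp _ b' T1 fun ω ω' _ _ g => g.1.2
  have c3 : Ex (cp p r U) (fun x => ld (b' x.2) (b' x.1)) ≤ 2 * κ + 2 * Real.log 5 := by
    have g := close_ld hq (Setoid.ker (fun x : Ω × Ω => b' x.1) ⊓
      (Setoid.ker (fun x : Ω × Ω => U x.1) ⊓ Setoid.comap Prod.fst r)) (fun x : Ω × Ω => b' x.2)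
      (fun x : Ω × Ω => b' x.1) (fun ω ω' _ _ g => g.1)
    have e := cp_CE (p := p) r U hp b'
    rw [e, ker_prod] at g
    exact g
  -- pointwise bound
  set F : Ω → ℝ := fun ω => Real.log 2 + ld (b' ω) (b ω)
    + dn M (((b' ω : ℕ) : ℤ) - tw ω) + ld (b' ω) (T1 ω) with hF
  set G : Ω → ℝ := fun ω => Real.log 2 + up M (B ω) with hG
  have key : ∀ x : Ω × Ω, 0 < cp p r U x →
      Real.log (1 + |((b x.1 : ℕ) : ℝ) - clip M (s1 (b' x.1 : ℕ) (b' x.2 : ℕ) (tz x.1)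
        (tw x.1) (tw x.2))|) ≤ Real.log 5 + ld (b x.1) (T1 x.1) + ld (b' x.2) (b' x.1)
          + F x.1 + F x.2 ∧
      Real.log (1 + |((T1 x.1 : ℕ) : ℝ) - clip M (s2 (b' x.1 : ℕ) (b' x.2 : ℕ) (tz x.1)
        (tw x.1) (tw x.2))|) ≤ Real.log 5 + ld (b x.1) (T1 x.1) + ld (b' x.2) (b' x.1)
          + F x.1 + F x.2 + G x.1 + G x.2 := by
    intro x hx
    obtain ⟨l1, l2⟩ := cp_link r U hx
    have q1 : b x.1 = b x.2 := congrArg Prod.fst l2
    have q2 : T1 x.1 = T1 x.2 := congrArg Prod.snd l2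
    have z1 : tz x.1 = tz x.2 :=
      hz x.1 x.2 (f1.pos hq.1 hx) (f2.pos hq.1 hx) l1
    have d1 := dn_tz (B x.1) (b' x.1) (T1 x.1) (b x.1)
    have d2 := dn_tz (B x.2) (b' x.2) (T1 x.2) (b x.2)
    have u1 := up_tw (B x.1) (b' x.1) (T1 x.1)
    have u2 := up_tw (B x.2) (b' x.2) (T1 x.2)
    obtain ⟨g1, g2⟩ := log_sol (B x.1) (B x.2) (b x.1) (T1 x.1) (b' x.1) (b' x.2) (tz x.1) rfl
      (by rw [q1, q2]; exact z1.symm)
    have e1 : tw x.2 = ((T1 x.1 : ℕ) : ℤ) + B x.2 := by rw [q2]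
    have e2 : dn M (((b' x.2 : ℕ) : ℤ) - tz x.1) = dn M (((b' x.2 : ℕ) : ℤ) - tz x.2) := by
      rw [z1]
    have e3 : ld (b' x.2) (T1 x.1) = ld (b' x.2) (T1 x.2) := by rw [q2]
    rw [e2, e3, ld_comm (b' x.1) (b' x.2)] at g1 g2
    rw [← e1] at g1 g2
    have e4 : ((((T1 x.1 : ℕ) : ℤ) + B x.1 : ℤ) : ℝ) = ((tw x.1 : ℤ) : ℝ) := rfl
    rw [e4] at g1 g2
    constructor
    · refine g1.trans ?_
      simp only [hF]
      linarith
    · refine g2.trans ?_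
      simp only [hF, hG]
      linarith
  -- entropies of the two heights
  set σ : Setoid (Ω × Ω) := (Setoid.ker (fun x => tw x.1) ⊓
        (Setoid.ker (fun x => tw x.2) ⊓ (Setoid.ker (fun x => b' x.1) ⊓
        (Setoid.ker (fun x => b' x.2) ⊓ Setoid.comap Prod.fst r)))) with hσ
  have hmeas : ∀ x y : Ω × Ω, 0 < cp p r U x → 0 < cp p r U y → σ x y →
      b' x.1 = b' y.1 ∧ b' x.2 = b' y.2 ∧ tz x.1 = tz y.1 ∧ tw x.1 = tw y.1 ∧ tw x.2 = tw y.2 := by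
    intro x y hx hy g
    exact ⟨g.2.2.1, g.2.2.2.1, hz x.1 y.1 (f1.pos hq.1 hx) (f1.pos hq.1 hy) g.2.2.2.2, g.1, g.2.1⟩
  have n1 := CE_near_fin hq σ (fun x : Ω × Ω => b x.1) (fun x => clip M (s1 (b' x.1 : ℕ)
    (b' x.2 : ℕ) (tz x.1) (tw x.1) (tw x.2))) (fun x y hx hy g => by
      obtain ⟨a1, a2, a3, a4, a5⟩ := hmeas x y hx hy g
      simp only [a1, a2, a3, a4, a5])
  have n2 := CE_near_fin hq σ (fun x : Ω × Ω => T1 x.1) (fun x => clip M (s2 (b' x.1 : ℕ)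
    (b' x.2 : ℕ) (tz x.1) (tw x.1) (tw x.2))) (fun x y hx hy g => by
      obtain ⟨a1, a2, a3, a4, a5⟩ := hmeas x y hx hy g
      simp only [a1, a2, a3, a4, a5])
  have m1 := Ex_mono' hq fun x hx => (key x hx).1
  have m2 := Ex_mono' hq fun x hx => (key x hx).2
  have w1 : Ex (cp p r U) (fun x => ld (b x.1) (T1 x.1)) = Ex p (fun ω => ld (b ω) (T1 ω)) :=
    Ex_MP f1 (fun ω => ld (b ω) (T1 ω))
  have w2 : Ex (cp p r U) (fun x => F x.1) = Ex p F := Ex_MP f1 F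
  have w3 : Ex (cp p r U) (fun x => F x.2) = Ex p F := Ex_MP f2 F
  have w4 : Ex (cp p r U) (fun x => G x.1) = Ex p G := Ex_MP f1 G
  have w5 : Ex (cp p r U) (fun x => G x.2) = Ex p G := Ex_MP f2 G
  rw [Ex_add, Ex_add, Ex_add, Ex_add, Ex_const hq, w1, w2, w3] at m1
  rw [Ex_add, Ex_add, Ex_add, Ex_add, Ex_add, Ex_add, Ex_const hq, w1, w2, w3, w4, w5] at m2
  have w6 : Ex p F = Real.log 2 + Ex p (fun ω => ld (b' ω) (b ω))
      + Ex p (fun ω => dn M (((b' ω : ℕ) : ℤ) - tw ω)) + Ex p (fun ω => ld (b' ω) (T1 ω)) := by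
    rw [hF, Ex_add, Ex_add, Ex_add, Ex_const hp]
  have w7 : Ex p G = Real.log 2 + Ex p (fun ω => up M (B ω)) := by
    rw [hG, Ex_add, Ex_const hp]
  have v1 : CE (cp p r U) (Setoid.ker (fun x : Ω × Ω => U x.1)) σ
      ≤ CE (cp p r U) (Setoid.ker (fun x : Ω × Ω => b x.1)) σ
        + CE (cp p r U) (Setoid.ker (fun x : Ω × Ω => T1 x.1)) σ := by
    have e : Setoid.ker (fun x : Ω × Ω => U x.1) = Setoid.ker (fun x : Ω × Ω => b x.1) ⊓
        Setoid.ker (fun x : Ω × Ω => T1 x.1) := ker_prod _ _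
    rw [e]
    exact CE_le_inf hq _ _ _
  have l5 := log5_le
  have l2 := log2_le
  have l12 : Real.log 12 ≤ 2.8 := by
    have h1 : Real.log 12 ≤ Real.log 16 := Real.log_le_log (by norm_num) (by norm_num)
    have h2 : Real.log 16 = 4 * Real.log 2 := by
      rw [show (16 : ℝ) = 2 ^ 4 by norm_num, Real.log_pow]; norm_num
    linarith
  linarith

end ent

end Pool.Agent.Helper81.Kak
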